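import Pool.Agent.Helper71.TfExotic

set_option autoImplicit false

namespace Pool.Agent.Helper75.GTP

open Polynomial Pool.Agent.Helper71.TfCore Pool.Agent.Helper71.TfMatch
  Pool.Agent.Helper71.TfField

/-- a prime over `q` exists -/
lemma exists_prime {q : ℕ} (hq : 2 ≤ q) : ∃ Q : Ideal (integralClosure ℤ ℂ), Q.IsPrime ∧
    (q : integralClosure ℤ ℂ) ∈ Q := by
  have hne : Ideal.span {(q : integralClosure ℤ ℂ)} ≠ ⊤ := by
    intro h
    rw [Ideal.span_singleton_eq_top] at h
    obtain ⟨z, hz⟩ := h.exists_right_inv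
    have h0 : (q : ℂ) ≠ 0 := by
      have : q ≠ 0 := by omega
      exact_mod_cast this
    have h1 : (q : ℂ) * (z : ℂ) = 1 := by
      have := congrArg (fun x : integralClosure ℤ ℂ => (x : ℂ)) hz
      push_cast at this
      exact this
    have h2 : (z : ℂ) = algebraMap ℚ ℂ (1 / (q : ℚ)) := by
      have h3 : (z : ℂ) = 1 / (q : ℂ) := by rw [eq_div_iff h0, mul_comm]; exact h1
      rw [h3]
      simp
    have h3 : IsIntegral ℤ (1 / (q : ℚ)) := by
      have h4 : IsIntegral ℤ (z : ℂ) := z.2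
      rw [h2] at h4
      exact (isIntegral_algebraMap_iff (algebraMap ℚ ℂ).injective).1 h4
    obtain ⟨y, hy⟩ := IsIntegrallyClosed.isIntegral_iff.1 h3
    have hq0 : (0 : ℚ) < q := by exact_mod_cast (by omega : 0 < q)
    have h4 : ((y * q : ℤ) : ℚ) = 1 := by
      push_cast
      rw [show (y : ℚ) = 1 / (q : ℚ) from by simpa using hy]
      field_simp
    have h5 : y * (q : ℤ) = 1 := by exact_mod_cast h4
    have h6 := Int.isUnit_iff.1 (IsUnit.of_mul_eq_one_right y h5)
    omega
  obtain ⟨Q, hQ, hle⟩ := Ideal.exists_le_maximal _ hne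
  exact ⟨Q, hQ.isPrime, hle (Ideal.mem_span_singleton_self _)⟩

/-- If at every prime over `q` one of the cofactors `q / f i`, `i ∈ s`, is a unit, then
`∏ f / q` is an algebraic integer. -/
lemma integral_of_cover {q : ℕ} (hq : (q : ℂ) ≠ 0) {ι : Type*} (s : Finset ι) (f f' : ι → ℂ)
    (hf : ∀ i, IsIntegral ℤ (f i)) (hf' : ∀ i, IsIntegral ℤ (f' i)) (hff : ∀ i, f i * f' i = q)
    (h : ∀ Q : Ideal (integralClosure ℤ ℂ), Q.IsPrime → (q : integralClosure ℤ ℂ) ∈ Q →
      ∃ i ∈ s, (⟨f' i, hf' i⟩ : integralClosure ℤ ℂ) ∉ Q) :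
    IsIntegral ℤ ((∏ i ∈ s, f i) / q) := by
  classical
  let I : Ideal (integralClosure ℤ ℂ) :=
    { carrier := {r | IsIntegral ℤ ((r : ℂ) * ((∏ i ∈ s, f i) / q))}
      add_mem' := by
        intro a b ha hb
        simp only [Set.mem_ofPred_eq] at ha hb ⊢
        have : ((a + b : integralClosure ℤ ℂ) : ℂ) * ((∏ i ∈ s, f i) / q) =
            (a : ℂ) * ((∏ i ∈ s, f i) / q) + (b : ℂ) * ((∏ i ∈ s, f i) / q) := by push_cast; ring
        rw [this]; exact ha.add hb
      zero_mem' := by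
        simp only [Set.mem_ofPred_eq, ZeroMemClass.coe_zero, zero_mul]
        exact isIntegral_zero
      smul_mem' := by
        intro c x hx
        simp only [Set.mem_ofPred_eq, smul_eq_mul] at hx ⊢
        have : ((c * x : integralClosure ℤ ℂ) : ℂ) * ((∏ i ∈ s, f i) / q) =
            (c : ℂ) * ((x : ℂ) * ((∏ i ∈ s, f i) / q)) := by push_cast; ring
        rw [this]; exact (c.2 : IsIntegral ℤ (c : ℂ)).mul hx }
  have hI : ∀ r : integralClosure ℤ ℂ, r ∈ I ↔ IsIntegral ℤ ((r : ℂ) * ((∏ i ∈ s, f i) / q)) :=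
    fun r => Iff.rfl
  by_contra hcon
  have hne : I ≠ ⊤ := by
    intro htop
    have h1 : (1 : integralClosure ℤ ℂ) ∈ I := by rw [htop]; trivial
    rw [hI] at h1
    apply hcon
    simpa using h1
  obtain ⟨Q, hQ, hIQ⟩ := Ideal.exists_le_maximal I hne
  have hqQ : (q : integralClosure ℤ ℂ) ∈ Q := by
    apply hIQ
    rw [hI]
    have : ((q : integralClosure ℤ ℂ) : ℂ) * ((∏ i ∈ s, f i) / q) = ∏ i ∈ s, f i := by
      push_cast
      field_simp
    rw [this]
    exact IsIntegral.prod _ fun i _ => hf i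
  obtain ⟨i, hi, h2⟩ := h Q hQ.isPrime hqQ
  apply h2
  apply hIQ
  rw [hI]
  have : f' i * ((∏ i ∈ s, f i) / q) = ∏ j ∈ s.erase i, f j := by
    rw [← Finset.mul_prod_erase s f hi, ← hff i]
    have h3 : f i ≠ 0 := by
      intro h3; apply hq; rw [← hff i, h3, zero_mul]
    have h4 : f' i ≠ 0 := by
      intro h4; apply hq; rw [← hff i, h4, mul_zero]
    field_simp
  change IsIntegral ℤ (f' i * ((∏ i ∈ s, f i) / q))
  rw [this]
  exact IsIntegral.prod _ fun i _ => hf i

section

variable {I : Type*} [Fintype I] {lam : I → ℂ} {P : ℤ[X]}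
  (hP : ∏ i, (X - C (lam i)) = P.map (Int.castRingHom ℂ))

include hP

/-- at least `g` of the `2 g` eigenvalues are units at every prime over `p` -/
lemma units_card [DecidableEq I] {g : ℕ} (hI : Fintype.card I = 2 * g) {p a : ℕ} (hp : p.Prime)
    (hord : ¬ (p : ℤ) ∣ P.coeff g)
    (Q : Ideal (integralClosure ℤ ℂ)) (hQ : Q.IsPrime)
    (hqQ : ((p ^ a : ℕ) : integralClosure ℤ ℂ) ∈ Q) (U : Finset I)
    (hU : ∀ i, i ∉ U → (⟨lam i, isIntegral_lam hP i⟩ : integralClosure ℤ ℂ) ∈ Q) :
    g ≤ U.card := by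
  let x : I → integralClosure ℤ ℂ := fun i => ⟨lam i, isIntegral_lam hP i⟩
  have hpQ : (p : integralClosure ℤ ℂ) ∈ Q := by
    push_cast at hqQ
    exact hQ.mem_of_pow_mem a hqQ
  have hPx : ∏ i, (X - C (x i)) = P.map (Int.castRingHom (integralClosure ℤ ℂ)) := by
    let ι : integralClosure ℤ ℂ →+* ℂ := algebraMap (integralClosure ℤ ℂ) ℂ
    have hι : Function.Injective ι := Subtype.val_injective
    apply Polynomial.map_injective ι hι
    rw [Polynomial.map_prod, Polynomial.map_map,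
      show ι.comp (Int.castRingHom (integralClosure ℤ ℂ)) = Int.castRingHom ℂ from
        RingHom.ext_int _ _, ← hP]
    refine Finset.prod_congr rfl fun i _ => ?_
    rw [Polynomial.map_sub, Polynomial.map_X, Polynomial.map_C]
    rfl
  by_contra hcon
  push Not at hcon
  let π := Ideal.Quotient.mk Q
  have h1 : (P.map (Int.castRingHom (integralClosure ℤ ℂ))).map π =
      X ^ (Uᶜ.card) * ∏ i ∈ U, (X - C (π (x i))) := by
    rw [← hPx, Polynomial.map_prod, ← Finset.prod_mul_prod_compl U, mul_comm]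
    congr 1
    · rw [Finset.prod_congr rfl (g := fun _ => (X : (integralClosure ℤ ℂ ⧸ Q)[X]))]
      · rw [Finset.prod_const]
      · intro j hj
        rw [Polynomial.map_sub, Polynomial.map_X, Polynomial.map_C,
          show π (x j) = 0 from Ideal.Quotient.eq_zero_iff_mem.2
            (hU j (by simpa using hj))]
        simp
    · exact Finset.prod_congr rfl fun j _ => by simp
  have hc : Uᶜ.card = 2 * g - U.card := by rw [Finset.card_compl, hI]
  have h2 : ((P.coeff g : ℤ) : integralClosure ℤ ℂ) ∈ Q := by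
    have h3 := congrArg (fun R => R.coeff g) h1
    simp only [Polynomial.coeff_map] at h3
    rw [Polynomial.coeff_X_pow_mul', if_neg (by omega)] at h3
    exact Ideal.Quotient.eq_zero_iff_mem.1 h3
  apply hord
  by_contra hnd
  have hcop : IsCoprime (p : ℤ) (P.coeff g) :=
    (Nat.prime_iff_prime_int.1 hp).coprime_iff_not_dvd.2 hnd
  obtain ⟨u, v, huv⟩ := hcop
  apply hQ.ne_top
  rw [Ideal.eq_top_iff_one]
  have h5 : (1 : integralClosure ℤ ℂ) = (u : integralClosure ℤ ℂ) * (p : integralClosure ℤ ℂ) +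
      (v : integralClosure ℤ ℂ) * ((P.coeff g : ℤ) : integralClosure ℤ ℂ) := by
    have := congrArg (fun z : ℤ => (z : integralClosure ℤ ℂ)) huv
    push_cast at this
    exact this.symm
  rw [h5]
  exact Q.add_mem (Q.mul_mem_left _ hpQ) (Q.mul_mem_left _ h2)

/-- ordinary case: an eigenvalue or its complex conjugate is a unit -/
lemma unit_or [DecidableEq I] {g : ℕ} (hI : Fintype.card I = 2 * g) {p a : ℕ} (hp : p.Prime)
    (hord : ¬ (p : ℤ) ∣ P.coeff g) (hn : ∀ i, ‖lam i‖ ^ 2 = (p ^ a : ℕ))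
    (Q : Ideal (integralClosure ℤ ℂ)) (hQ : Q.IsPrime)
    (hqQ : ((p ^ a : ℕ) : integralClosure ℤ ℂ) ∈ Q) (c : I ≃ I)
    (hc : ∀ i, lam (c i) = (starRingEnd ℂ) (lam i)) (i : I) :
    (⟨lam i, isIntegral_lam hP i⟩ : integralClosure ℤ ℂ) ∉ Q ∨
      (⟨lam (c i), isIntegral_lam hP (c i)⟩ : integralClosure ℤ ℂ) ∉ Q := by
  classical
  let x : I → integralClosure ℤ ℂ := fun i => ⟨lam i, isIntegral_lam hP i⟩
  let U : Finset I := Finset.univ.filter fun i => x i ∉ Q
  have hUmem : ∀ i, i ∈ U ↔ x i ∉ Q := by intro i; simp [U]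
  have hcc : ∀ i, x (c (c i)) = x i := by
    intro i
    apply Subtype.ext
    change lam (c (c i)) = lam i
    rw [hc, hc, Complex.conj_conj]
  have hmul : ∀ i, x i * x (c i) = ((p ^ a : ℕ) : integralClosure ℤ ℂ) := by
    intro i
    apply Subtype.ext
    change lam i * lam (c i) = _
    rw [hc, Complex.mul_conj, Complex.normSq_eq_norm_sq, hn]
    push_cast
    rfl
  have hor : ∀ i, x i ∈ Q ∨ x (c i) ∈ Q := by
    intro i
    apply hQ.mem_or_mem
    rw [hmul]
    exact hqQ
  have h1 : g ≤ U.card := by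
    refine units_card hP hI hp hord Q hQ hqQ U fun i hi => ?_
    rw [hUmem, not_not] at hi
    exact hi
  have h2 : Disjoint U (U.map c.toEmbedding) := by
    rw [Finset.disjoint_left]
    intro i hi h
    obtain ⟨j, hj, rfl⟩ := Finset.mem_map.1 h
    rw [hUmem] at hi hj
    rcases hor j with h3 | h3
    · exact hj h3
    · exact hi h3
  have h3 : U ∪ U.map c.toEmbedding = Finset.univ := by
    apply Finset.eq_univ_of_card
    apply le_antisymm (Finset.card_le_univ _)
    rw [Finset.card_union_of_disjoint h2, Finset.card_map, hI]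
    omega
  have h4 : i ∈ U ∪ U.map c.toEmbedding := by rw [h3]; exact Finset.mem_univ i
  rw [Finset.mem_union] at h4
  rcases h4 with h4 | h4
  · exact Or.inl ((hUmem i).1 h4)
  · right
    obtain ⟨j, hj, rfl⟩ := Finset.mem_map.1 h4
    rw [hUmem] at hj
    change x (c (c j)) ∉ Q
    rw [hcc]
    exact hj

end

end Pool.Agent.Helper75.GTP
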