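import Mathlib

set_option autoImplicit false

namespace Pool.Agent.Helper75.GTP

open Module Polynomial

/-! ### Eigenbases (after helper71) -/

section Basis

variable {W : Type*} [AddCommGroup W] [Module ℂ W] {I : Type*} [LinearOrder I]
  (b : Basis I ℂ W)

lemma basis_mem (s : Finset I) : b.ExteriorAlgebra s ∈ ⋀[ℂ]^s.card W := by
  have h := ExteriorAlgebra.basis_eq_coe_basis b (Set.powersetCard.ofCard (rfl : s.card = s.card))
  have h2 : (Set.powersetCard.ofCard (rfl : s.card = s.card)).val = s := rfl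
  rw [h2] at h
  rw [h]
  exact Subtype.property _

lemma map_basis (Φ : W →ₗ[ℂ] W) (lam : I → ℂ) (hb : ∀ i, Φ (b i) = lam i • b i)
    (s : Finset I) :
    ExteriorAlgebra.map Φ (b.ExteriorAlgebra s) = (∏ i ∈ s, lam i) • b.ExteriorAlgebra s := by
  rw [ExteriorAlgebra.basis_apply_ofCard b (rfl : s.card = s.card)]
  unfold ExteriorAlgebra.ιMulti_family
  rw [ExteriorAlgebra.map_apply_ιMulti]
  have h1 : (⇑Φ ∘ ⇑b ∘ ⇑(Set.powersetCard.ofFinEmbEquiv.symm (Set.powersetCard.ofCard
      (rfl : s.card = s.card)))) =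
      fun j => lam (Set.powersetCard.ofFinEmbEquiv.symm (Set.powersetCard.ofCard
      (rfl : s.card = s.card)) j) • (⇑b ∘ ⇑(Set.powersetCard.ofFinEmbEquiv.symm
      (Set.powersetCard.ofCard (rfl : s.card = s.card)))) j := by
    funext j
    simp [hb]
  rw [h1]
  have h2 := (ExteriorAlgebra.ιMulti ℂ s.card (M := W)).toMultilinearMap.map_smul_univ
    (fun j => lam (Set.powersetCard.ofFinEmbEquiv.symm (Set.powersetCard.ofCard
      (rfl : s.card = s.card)) j)) (⇑b ∘ ⇑(Set.powersetCard.ofFinEmbEquiv.symm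
      (Set.powersetCard.ofCard (rfl : s.card = s.card))))
  simp only [AlternatingMap.coe_multilinearMap] at h2
  rw [h2]
  congr 1
  have h3 := Finset.prod_map (Finset.univ : Finset (Fin s.card)) (s.orderEmbOfFin rfl).toEmbedding lam
  rw [Finset.map_orderEmbOfFin_univ] at h3
  rw [h3]
  rfl

lemma mem_span_of_mem_pow {i : ℕ} {w : ExteriorAlgebra ℂ W} (hw : w ∈ ⋀[ℂ]^i W) :
    w ∈ Submodule.span ℂ (b.ExteriorAlgebra '' {s | s.card = i}) := by
  have h1 : (⟨w, hw⟩ : ⋀[ℂ]^i W) ∈ Submodule.span ℂ (Set.range (b.exteriorPower i)) := by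
    rw [(b.exteriorPower i).span_eq]; trivial
  have h2 := Submodule.mem_map_of_mem (f := (⋀[ℂ]^i W).subtype) h1
  rw [Submodule.map_span, ← Set.range_comp] at h2
  refine Submodule.span_mono ?_ h2
  rintro _ ⟨s, rfl⟩
  exact ⟨s.val, s.prop, ExteriorAlgebra.basis_eq_coe_basis b s⟩

lemma repr_map (Φ : W →ₗ[ℂ] W) (lam : I → ℂ) (hb : ∀ i, Φ (b i) = lam i • b i)
    (w : ExteriorAlgebra ℂ W) (s : Finset I) :
    b.ExteriorAlgebra.repr (ExteriorAlgebra.map Φ w) s =
      (∏ i ∈ s, lam i) * b.ExteriorAlgebra.repr w s := by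
  have h : (b.ExteriorAlgebra.coord s).comp (ExteriorAlgebra.map Φ).toLinearMap =
      (∏ i ∈ s, lam i) • b.ExteriorAlgebra.coord s := by
    refine b.ExteriorAlgebra.ext fun t => ?_
    simp only [LinearMap.comp_apply, AlgHom.toLinearMap_apply, map_basis b Φ lam hb, map_smul,
      LinearMap.smul_apply, Basis.coord_apply, Basis.repr_self, smul_eq_mul]
    by_cases hst : t = s
    · rw [hst]
    · rw [Finsupp.single_eq_of_ne (Ne.symm hst)]; simp
  have h2 := LinearMap.congr_fun h w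
  simpa using h2

/-- Eigenvectors of degree `i` are combinations of basis monomials of degree `i` with the same
eigenvalue. -/
lemma eigen_mem (Φ : W →ₗ[ℂ] W) (lam : I → ℂ) (hb : ∀ i, Φ (b i) = lam i • b i)
    {i : ℕ} {w : ExteriorAlgebra ℂ W} (hw : w ∈ ⋀[ℂ]^i W) {β : ℂ}
    (hβ : ExteriorAlgebra.map Φ w = β • w) :
    w ∈ Submodule.span ℂ (b.ExteriorAlgebra '' {s | s.card = i ∧ ∏ j ∈ s, lam j = β}) := by
  rw [Basis.mem_span_image]
  intro s hs
  have hs' : b.ExteriorAlgebra.repr w s ≠ 0 := by simpa using hs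
  constructor
  · have h1 := mem_span_of_mem_pow b hw
    rw [Basis.mem_span_image] at h1
    exact h1 hs
  · have h1 := repr_map b Φ lam hb w s
    rw [hβ] at h1
    simp only [map_smul, Finsupp.smul_apply, smul_eq_mul] at h1
    exact (mul_right_cancel₀ hs' h1).symm

lemma basis_mul (s t : Finset I) (h : Disjoint s t) :
    ∃ c : ℂ, c ≠ 0 ∧ b.ExteriorAlgebra s * b.ExteriorAlgebra t = c • b.ExteriorAlgebra (s ∪ t) := by
  have h1 := ExteriorAlgebra.basis_mul_of_disjoint b
    (Set.powersetCard.ofCard (rfl : s.card = s.card))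
    (Set.powersetCard.ofCard (rfl : t.card = t.card)) h
  have h2 : (Set.powersetCard.ofCard (rfl : s.card = s.card)).val = s := rfl
  have h3 : (Set.powersetCard.ofCard (rfl : t.card = t.card)).val = t := rfl
  rw [h2, h3] at h1
  have h4 : (Set.powersetCard.disjUnion (s := Set.powersetCard.ofCard (rfl : s.card = s.card))
      (t := Set.powersetCard.ofCard (rfl : t.card = t.card)) h).val = s ∪ t := by
    ext x
    simp [Set.powersetCard.disjUnion, Set.powersetCard.ofCard]
  rw [h4] at h1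
  rcases Int.units_eq_one_or (Set.powersetCard.permOfDisjoint
      (s := Set.powersetCard.ofCard (rfl : s.card = s.card))
      (t := Set.powersetCard.ofCard (rfl : t.card = t.card)) h).sign with h5 | h5
  · rw [h5] at h1
    exact ⟨1, one_ne_zero, by simpa using h1⟩
  · rw [h5] at h1
    exact ⟨-1, by norm_num, by simpa using h1⟩

lemma basis_mul_zero (s t : Finset I) (h : ¬ Disjoint s t) :
    b.ExteriorAlgebra s * b.ExteriorAlgebra t = 0 := by
  have h1 := ExteriorAlgebra.basis_mul_of_not_disjoint b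
    (Set.powersetCard.ofCard (rfl : s.card = s.card))
    (Set.powersetCard.ofCard (rfl : t.card = t.card)) h
  exact h1

omit [LinearOrder I] in
lemma pow_apply_basis {Φ : Module.End ℂ W} {lam : I → ℂ} (hb : ∀ i, Φ (b i) = lam i • b i)
    (m : ℕ) (i : I) : (Φ ^ m) (b i) = lam i ^ m • b i := by
  induction m with
  | zero => simp
  | succ m ih => rw [pow_succ', Module.End.mul_apply, ih, map_smul, hb, smul_smul, ← pow_succ]

end Basis

section Arith

lemma dual_eq {I : Type*} {q : ℕ} (hq : (q : ℂ) ≠ 0) {lam : I → ℂ}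
    (hlam : ∀ i, lam i * (starRingEnd ℂ) (lam i) = q) {ν : ℕ} {s : Finset I}
    (hν : ν ≤ s.card) :
    (q : ℂ) ^ (s.card - ν) / (∏ i ∈ s, lam i) =
      (starRingEnd ℂ) ((∏ i ∈ s, lam i) / (q : ℂ) ^ ν) := by
  have h1 : (∏ i ∈ s, lam i) * (starRingEnd ℂ) (∏ i ∈ s, lam i) = (q : ℂ) ^ s.card := by
    rw [map_prod, ← Finset.prod_mul_distrib, Finset.prod_congr rfl (fun i _ => hlam i),
      Finset.prod_const]
  have h0 : (∏ i ∈ s, lam i) ≠ 0 := by
    intro h
    rw [h, zero_mul] at h1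
    exact pow_ne_zero _ hq h1.symm
  have h2 : (starRingEnd ℂ) ((q : ℂ) ^ ν) = (q : ℂ) ^ ν := by simp
  rw [map_div₀, h2, div_eq_div_iff h0 (pow_ne_zero _ hq), ← pow_add, Nat.sub_add_cancel hν,
    ← h1]
  ring

lemma integral_conj {z : ℂ} (hz : IsIntegral ℤ z) : IsIntegral ℤ ((starRingEnd ℂ) z) :=
  hz.map (starRingEnd ℂ).toIntAlgHom

/-- the roots of `T² - t q T + q³` are divisible by `q` -/
lemma elliptic_integral {q : ℕ} (hq : (q : ℂ) ≠ 0) {μ : ℂ} {t : ℤ}
    (h : μ ^ 2 - t * q * μ + (q : ℂ) ^ 3 = 0) : IsIntegral ℤ (μ / q) := by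
  have h4 : (μ / q) ^ 2 - t * (μ / q) + q = 0 := by
    have : (μ / q) ^ 2 - t * (μ / q) + q = (μ ^ 2 - t * q * μ + (q : ℂ) ^ 3) / q ^ 2 := by
      field_simp
    rw [this, h, zero_div]
  refine ⟨X ^ 2 - C t * X + C (q : ℤ), ?_, ?_⟩
  · have : (X ^ 2 - C t * X + C (q : ℤ) : ℤ[X]) = X ^ 2 + (- (C t * X) + C (q : ℤ)) := by ring
    rw [this]
    refine Polynomial.monic_X_pow_add ?_
    refine lt_of_le_of_lt (Polynomial.degree_add_le _ _) ?_
    refine max_lt ?_ ?_
    · rw [Polynomial.degree_neg]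
      exact lt_of_le_of_lt (Polynomial.degree_C_mul_X_le _) (by norm_num)
    · exact lt_of_le_of_lt Polynomial.degree_C_le (by norm_num)
  · simp only [Polynomial.eval₂_add, Polynomial.eval₂_sub, Polynomial.eval₂_mul,
      Polynomial.eval₂_pow, Polynomial.eval₂_X, Polynomial.eval₂_C]
    simpa using h4

end Arith

section Power

variable {V : Type*} [AddCommGroup V] [Module ℂ V]

lemma eigenbasis [FiniteDimensional ℂ V] (F : Module.End ℂ V) (hF : F.IsSemisimple) :
    ∃ (d : ℕ) (b : Basis (Fin d) ℂ V) (lam : Fin d → ℂ), ∀ i, F (b i) = lam i • b i := by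
  classical
  let D := DirectSum.isInternal_submodule_of_iSupIndep_of_iSup_eq_top
    F.eigenspaces_iSupIndep hF.iSup_eigenspace_eq_top
  let J := (ν : ℂ) × Fin (finrank ℂ (F.eigenspace ν))
  let v : Basis J ℂ V := D.collectedBasis fun μ ↦ finBasis ℂ (F.eigenspace μ)
  have : Fintype J := FiniteDimensional.fintypeBasisIndex v
  let e := Fintype.equivFin J
  refine ⟨Fintype.card J, v.reindex e, fun i => (e.symm i).1, fun i => ?_⟩
  rw [Basis.reindex_apply]
  exact Module.End.mem_eigenspace_iff.1 (D.collectedBasis_mem _ (e.symm i))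

/-- an eigenbasis of the powers, with explicit indices -/
lemma power_basis (F : Module.End ℂ V) {d : ℕ} (b : Basis (Fin d) ℂ V) (lam : Fin d → ℂ)
    (hb : ∀ i, F (b i) = lam i • b i) (n : ℕ) :
    ∃ (N : ℕ) (e : (Σ _ : Fin n, Fin d) ≃ Fin N) (B : Basis (Fin N) ℂ (Fin n → V)),
      ∀ i, (F.compLeft (Fin n)) (B i) = lam (e.symm i).2 • B i := by
  classical
  let e := Fintype.equivFin (Σ _ : Fin n, Fin d)
  refine ⟨_, e, (Pi.basis fun _ : Fin n => b).reindex e, fun i => ?_⟩
  rw [Basis.reindex_apply, Pi.basis_apply]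
  funext k
  rw [LinearMap.compLeft_apply]
  simp only [Function.comp_apply, Pi.smul_apply]
  rcases eq_or_ne k (e.symm i).1 with hk | hk
  · rw [hk, Pi.single_eq_same, hb]
  · rw [Pi.single_eq_of_ne hk, map_zero, smul_zero]

lemma hasEigenvalue_of_basis (F : Module.End ℂ V) {d : ℕ} (b : Basis (Fin d) ℂ V)
    (lam : Fin d → ℂ) (hb : ∀ i, F (b i) = lam i • b i) (i : Fin d) :
    F.HasEigenvalue (lam i) :=
  Module.End.hasEigenvalue_of_hasEigenvector
    ⟨Module.End.mem_eigenspace_iff.2 (hb i), b.ne_zero i⟩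

/-- the roots of a monic polynomial as a family -/
lemma exists_roots {Q : ℂ[X]} (hQ : Q.Monic) :
    ∃ f : Fin Q.natDegree → ℂ, ∏ i, (X - C (f i)) = Q := by
  have h1 : Q = (Q.roots.map fun a => X - C a).prod :=
    (IsAlgClosed.splits Q).eq_prod_roots_of_monic hQ
  have h2 : Q.roots.toList.length = Q.natDegree := by
    rw [Multiset.length_toList]
    exact ((IsAlgClosed.splits Q).natDegree_eq_card_roots).symm
  refine ⟨fun i => Q.roots.toList.get (i.cast h2.symm), ?_⟩
  conv_rhs => rw [h1]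
  have h3 : Q.roots = ((Q.roots.toList : List ℂ) : Multiset ℂ) := (Multiset.coe_toList _).symm
  conv_rhs => rw [h3]
  rw [Multiset.map_coe, Multiset.prod_coe]
  rw [← Fin.prod_univ_getElem]
  refine Fintype.prod_equiv (finCongr (by rw [List.length_map, h2])) _ _ fun i => ?_
  simp

lemma exists_roots' {Q : ℂ[X]} (hQ : Q.Monic) {m : ℕ} (hm : Q.natDegree = m) :
    ∃ f : Fin m → ℂ, ∏ i, (X - C (f i)) = Q := by
  subst hm
  exact exists_roots hQ

end Power

end Pool.Agent.Helper75.GTP
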