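import Mathlib

set_option autoImplicit false

namespace Pool.Agent.Helper75.GTP

section Gen

variable {K : Type*} [DecidableEq K]

/-- the indices `T` of eigenvectors whose product is a divisor class or an elliptic class -/
def Gen (q : ℕ) (mu : K → ℂ) (T : Finset K) : Prop :=
  (T.card = 2 ∧ ∃ m : ℕ, 0 < m ∧ (∏ i ∈ T, mu i) ^ m = (q : ℂ) ^ m) ∨
    (T.card = 3 ∧ ∃ t : ℤ, (∏ i ∈ T, mu i) ^ 2 - t * q * (∏ i ∈ T, mu i) + (q : ℂ) ^ 3 = 0)

/-- `s` contains `ν` disjoint generators -/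
def Mat (q : ℕ) (mu : K → ℂ) : ℕ → Finset K → Prop
  | 0, _ => True
  | ν + 1, s => ∃ T ⊆ s, Gen q mu T ∧ Mat q mu ν (s \ T)

lemma Mat.mono_set {q : ℕ} {mu : K → ℂ} {N : ℕ} : ∀ {s s' : Finset K}, s ⊆ s' → Mat q mu N s →
    Mat q mu N s' := by
  induction N with
  | zero => intro s s' _ _; trivial
  | succ N ih =>
    rintro s s' hs ⟨T, hT, hg, hm⟩
    exact ⟨T, hT.trans hs, hg, ih (Finset.sdiff_subset_sdiff hs (le_refl _)) hm⟩

lemma Mat.pred {q : ℕ} {mu : K → ℂ} {N : ℕ} {s : Finset K} (h : Mat q mu (N + 1) s) :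
    Mat q mu N s := by
  obtain ⟨T, hT, hg, hm⟩ := h
  exact hm.mono_set Finset.sdiff_subset

lemma Mat.mono {q : ℕ} {mu : K → ℂ} {N N' : ℕ} {s : Finset K} (h : Mat q mu N s)
    (hN : N' ≤ N) : Mat q mu N' s := by
  induction N with
  | zero => rw [Nat.le_zero.1 hN]; exact h
  | succ N ih =>
    rcases Nat.lt_or_ge N N' with h1 | h1
    · rwa [show N' = N + 1 by omega]
    · exact ih h.pred h1

lemma Mat.union {q : ℕ} {mu : K → ℂ} {N N' : ℕ} {s' : Finset K} (h' : Mat q mu N' s') :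
    ∀ {s : Finset K}, Disjoint s s' → Mat q mu N s → Mat q mu (N + N') (s ∪ s') := by
  induction N with
  | zero =>
    intro s _ _
    rw [zero_add]
    exact h'.mono_set Finset.subset_union_right
  | succ N ih =>
    rintro s hd ⟨T, hT, hg, hm⟩
    rw [show N + 1 + N' = N + N' + 1 by ring]
    refine ⟨T, hT.trans Finset.subset_union_left, hg, ?_⟩
    have h1 := ih (hd.mono_left Finset.sdiff_subset) hm
    refine h1.mono_set ?_
    intro x hx
    rw [Finset.mem_union, Finset.mem_sdiff] at hx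
    rw [Finset.mem_sdiff, Finset.mem_union]
    rcases hx with hx | hx
    · exact ⟨Or.inl hx.1, hx.2⟩
    · exact ⟨Or.inr hx, fun h => (Finset.disjoint_left.1 hd) (hT h) hx⟩

lemma Mat.biUnion {q : ℕ} {mu : K → ℂ} {κ : Type*} [DecidableEq κ] (B : Finset κ)
    (s : κ → Finset K) (N : κ → ℕ) (hd : ∀ j ∈ B, ∀ k ∈ B, j ≠ k → Disjoint (s j) (s k))
    (h : ∀ j ∈ B, Mat q mu (N j) (s j)) : Mat q mu (∑ j ∈ B, N j) (B.biUnion s) := by
  induction B using Finset.induction_on with
  | empty => simp only [Finset.sum_empty]; trivial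
  | insert b B hb ih =>
    rw [Finset.sum_insert hb, Finset.biUnion_insert]
    refine Mat.union (ih ?_ ?_) ?_ (h b (Finset.mem_insert_self _ _))
    · intro j hj k hk
      exact hd j (Finset.mem_insert_of_mem hj) k (Finset.mem_insert_of_mem hk)
    · intro j hj
      exact h j (Finset.mem_insert_of_mem hj)
    · rw [Finset.disjoint_biUnion_right]
      intro j hj
      refine hd b (Finset.mem_insert_self _ _) j (Finset.mem_insert_of_mem hj) ?_
      rintro rfl
      exact hb hj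

/-- `N` disjoint triples from three disjoint sets with `N` elements -/
lemma mat_triples {q : ℕ} {mu : K → ℂ} {a b c : ℂ} (t : ℤ)
    (ht : (a * b * c) ^ 2 - t * q * (a * b * c) + (q : ℂ) ^ 3 = 0) (N : ℕ) :
    ∀ R1 R2 R3 : Finset K, Disjoint R1 R2 → Disjoint R1 R3 → Disjoint R2 R3 →
      (∀ x ∈ R1, mu x = a) → (∀ x ∈ R2, mu x = b) → (∀ x ∈ R3, mu x = c) →
      N ≤ R1.card → N ≤ R2.card → N ≤ R3.card → Mat q mu N (R1 ∪ R2 ∪ R3) := by
  induction N with
  | zero => intros; trivial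
  | succ N ih =>
    intro R1 R2 R3 h12 h13 h23 m1 m2 m3 c1 c2 c3
    obtain ⟨x, hx⟩ := Finset.card_pos.1 (lt_of_lt_of_le (Nat.succ_pos N) c1)
    obtain ⟨y, hy⟩ := Finset.card_pos.1 (lt_of_lt_of_le (Nat.succ_pos N) c2)
    obtain ⟨z, hz⟩ := Finset.card_pos.1 (lt_of_lt_of_le (Nat.succ_pos N) c3)
    have hxy : x ≠ y := by
      rintro rfl; exact Finset.disjoint_left.1 h12 hx hy
    have hxz : x ≠ z := by
      rintro rfl; exact Finset.disjoint_left.1 h13 hx hz
    have hyz : y ≠ z := by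
      rintro rfl; exact Finset.disjoint_left.1 h23 hy hz
    have hprod : ∏ l ∈ ({x, y, z} : Finset K), mu l = a * b * c := by
      rw [Finset.prod_insert (by simp [hxy, hxz]), Finset.prod_pair hyz, m1 x hx, m2 y hy,
        m3 z hz]
      ring
    refine ⟨{x, y, z}, ?_, Or.inr ⟨Finset.card_eq_three.2 ⟨x, y, z, hxy, hxz, hyz, rfl⟩, t, ?_⟩, ?_⟩
    · intro w hw
      simp only [Finset.mem_insert, Finset.mem_singleton] at hw
      simp only [Finset.mem_union]
      rcases hw with rfl | rfl | rfl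
      · exact Or.inl (Or.inl hx)
      · exact Or.inl (Or.inr hy)
      · exact Or.inr hz
    · rw [hprod]; exact ht
    · have h1 := ih (R1.erase x) (R2.erase y) (R3.erase z)
        (h12.mono (Finset.erase_subset _ _) (Finset.erase_subset _ _))
        (h13.mono (Finset.erase_subset _ _) (Finset.erase_subset _ _))
        (h23.mono (Finset.erase_subset _ _) (Finset.erase_subset _ _))
        (fun w hw => m1 w (Finset.mem_of_mem_erase hw))
        (fun w hw => m2 w (Finset.mem_of_mem_erase hw))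
        (fun w hw => m3 w (Finset.mem_of_mem_erase hw))
        (by rw [Finset.card_erase_of_mem hx]; omega)
        (by rw [Finset.card_erase_of_mem hy]; omega)
        (by rw [Finset.card_erase_of_mem hz]; omega)
      refine h1.mono_set ?_
      intro w hw
      simp only [Finset.mem_union, Finset.mem_erase] at hw
      simp only [Finset.mem_sdiff, Finset.mem_union, Finset.mem_insert, Finset.mem_singleton,
        not_or]
      rcases hw with (⟨hne, hw⟩ | ⟨hne, hw⟩) | ⟨hne, hw⟩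
      · refine ⟨Or.inl (Or.inl hw), hne, ?_, ?_⟩
        · rintro rfl; exact Finset.disjoint_left.1 h12 hw hy
        · rintro rfl; exact Finset.disjoint_left.1 h13 hw hz
      · refine ⟨Or.inl (Or.inr hw), ?_, hne, ?_⟩
        · rintro rfl; exact Finset.disjoint_left.1 h12 hx hw
        · rintro rfl; exact Finset.disjoint_left.1 h23 hw hz
      · refine ⟨Or.inr hw, ?_, ?_, hne⟩
        · rintro rfl; exact Finset.disjoint_left.1 h13 hx hw
        · rintro rfl; exact Finset.disjoint_left.1 h23 hy hw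

lemma pow_quot' {q : ℕ} (hq : (q : ℂ) ≠ 0) {mu : K → ℂ} {ν : ℕ}
    {s T : Finset K} (hT : T ⊆ s) {m : ℕ}
    (hm : (∏ i ∈ T, mu i) ^ m = (q : ℂ) ^ m) :
    ((∏ k ∈ s, mu k) / (q : ℂ) ^ (ν + 1)) ^ m =
      ((∏ k ∈ s \ T, mu k) / (q : ℂ) ^ ν) ^ m := by
  rw [← Finset.prod_sdiff hT, div_pow, div_pow, mul_pow, hm]
  field_simp
  ring

end Gen

end Pool.Agent.Helper75.GTP
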