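import Pool.Agent.Helper75.GTP.Arith
import Pool.Agent.Helper75.GTP.Mat

set_option autoImplicit false

namespace Pool.Agent.Helper75.GTP

open Polynomial Pool.Agent.Helper71.TfCore Pool.Agent.Helper71.TfMatch
  Pool.Agent.Helper71.TfField

section

variable {I : Type*} [Fintype I] {lam : I → ℂ} {P : ℤ[X]}

/-- Kronecker, in terms of complex numbers -/
lemma kron (hP : ∏ i, (X - C (lam i)) = P.map (Int.castRingHom ℂ)) {q : ℕ} (hq : q ≠ 0)
    (hn : ∀ i, ‖lam i‖ ^ 2 = q) (i j : I) (hint : IsIntegral ℤ (lam i * lam j / q)) :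
    ∃ n : ℕ, 0 < n ∧ (lam i * lam j) ^ n = (q : ℂ) ^ n := by
  obtain ⟨L, hfin, hgal, hL⟩ := exists_field hP
  refine kronecker hP hL hq hn i j ?_
  rw [← isIntegral_algebraMap_iff (algebraMap L ℂ).injective, map_div₀, map_mul, map_natCast]
  exact hint

omit [Fintype I] in
lemma mul_conj_eq {q : ℕ} (hn : ∀ i, ‖lam i‖ ^ 2 = q) {c : I ≃ I}
    (hc : ∀ i, lam (c i) = (starRingEnd ℂ) (lam i)) (i : I) : lam i * lam (c i) = q := by
  rw [hc, Complex.mul_conj, Complex.normSq_eq_norm_sq, hn]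
  simp

variable [DecidableEq I]

/-- ordinary eigenvalues are not supersingular -/
lemma no_self (hP : ∏ i, (X - C (lam i)) = P.map (Int.castRingHom ℂ)) {g : ℕ}
    (hI : Fintype.card I = 2 * g) {p a : ℕ} (hp : p.Prime) (ha : 0 < a)
    (hord : ¬ (p : ℤ) ∣ P.coeff g) (hn : ∀ i, ‖lam i‖ ^ 2 = (p ^ a : ℕ)) (c : I ≃ I)
    (hc : ∀ i, lam (c i) = (starRingEnd ℂ) (lam i)) (i : I) (m : ℕ)
    (hm : 0 < m) (h : (lam i * lam i) ^ m = ((p ^ a : ℕ) : ℂ) ^ m) : False := by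
  have hq2 : 2 ≤ p ^ a := le_trans hp.two_le (Nat.le_self_pow ha.ne' p)
  obtain ⟨Q, hQ, hqQ⟩ := exists_prime hq2
  have key : ∀ x : integralClosure ℤ ℂ, ((x : ℂ) * (x : ℂ)) ^ m = ((p ^ a : ℕ) : ℂ) ^ m →
      x ∈ Q := by
    intro x hx
    have h1 : (x * x) ^ m = ((p ^ a : ℕ) : integralClosure ℤ ℂ) ^ m := by
      apply Subtype.ext
      push_cast at hx ⊢
      exact hx
    have h2 : (x * x) ^ m ∈ Q := by
      rw [h1]
      exact Q.pow_mem_of_mem hqQ _ hm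
    rcases hQ.mem_or_mem (hQ.mem_of_pow_mem m h2) with h3 | h3 <;> exact h3
  have hconj : (lam (c i) * lam (c i)) ^ m = ((p ^ a : ℕ) : ℂ) ^ m := by
    rw [hc, ← map_mul, ← map_pow, h, map_pow, map_natCast]
  rcases unit_or hP hI hp hord hn Q hQ hqQ c hc i with h1 | h1
  · exact h1 (key _ h)
  · exact h1 (key _ hconj)

/-- if no prime over `q` misses `lam i`, `i ∈ J`, then `∏ lam / q` is integral -/
lemma cover_integral (hP : ∏ i, (X - C (lam i)) = P.map (Int.castRingHom ℂ)) {g : ℕ}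
    (hI : Fintype.card I = 2 * g) {p a : ℕ} (hp : p.Prime)
    (hord : ¬ (p : ℤ) ∣ P.coeff g) (hn : ∀ i, ‖lam i‖ ^ 2 = (p ^ a : ℕ)) (c : I ≃ I)
    (hc : ∀ i, lam (c i) = (starRingEnd ℂ) (lam i)) (J : Finset I)
    (hJ : ∀ Q : Ideal (integralClosure ℤ ℂ), Q.IsPrime → ((p ^ a : ℕ) : integralClosure ℤ ℂ) ∈ Q →
      ∃ i ∈ J, (⟨lam i, isIntegral_lam hP i⟩ : integralClosure ℤ ℂ) ∈ Q) :
    IsIntegral ℤ ((∏ i ∈ J, lam i) / (p ^ a : ℕ)) := by
  have hq0 : ((p ^ a : ℕ) : ℂ) ≠ 0 := by exact_mod_cast pow_ne_zero a hp.ne_zero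
  refine integral_of_cover hq0 J lam (fun i => lam (c i)) (isIntegral_lam hP)
    (fun i => isIntegral_lam hP (c i)) (mul_conj_eq hn hc) ?_
  intro Q hQ hqQ
  obtain ⟨i, hi, hiQ⟩ := hJ Q hQ hqQ
  exact ⟨i, hi, (unit_or hP hI hp hord hn Q hQ hqQ c hc i).resolve_left (not_not.2 hiQ)⟩

open scoped Classical in
/-- A pair free set of eigenvalues of an ordinary Weil polynomial of degree at most six which is
hit by all primes over `q` is an elliptic triple, and is minimal. -/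
lemma block_ord (hP : ∏ i, (X - C (lam i)) = P.map (Int.castRingHom ℂ)) {g : ℕ}
    (hI : Fintype.card I = 2 * g) (hg : g ≤ 3) {p a : ℕ} (hp : p.Prime) (ha : 0 < a)
    (hord : ¬ (p : ℤ) ∣ P.coeff g) (hn : ∀ i, ‖lam i‖ ^ 2 = (p ^ a : ℕ)) (J : Finset I)
    (hJpair : ∀ i ∈ J, ∀ j ∈ J, ∀ n : ℕ, 0 < n →
      (lam i * lam j) ^ n ≠ ((p ^ a : ℕ) : ℂ) ^ n)
    (hhit : ∀ Q : Ideal (integralClosure ℤ ℂ), Q.IsPrime → ((p ^ a : ℕ) : integralClosure ℤ ℂ) ∈ Q →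
      ∃ i ∈ J, (⟨lam i, isIntegral_lam hP i⟩ : integralClosure ℤ ℂ) ∈ Q) :
    J.card = 3 ∧ (∃ t : ℤ, (∏ l ∈ J, lam l) ^ 2 - t * (p ^ a : ℕ) * (∏ l ∈ J, lam l) +
      ((p ^ a : ℕ) : ℂ) ^ 3 = 0) ∧
      ∀ l ∈ J, ∃ Q : Ideal (integralClosure ℤ ℂ), Q.IsPrime ∧ ((p ^ a : ℕ) : integralClosure ℤ ℂ) ∈ Q ∧
        ∀ i ∈ J.erase l, (⟨lam i, isIntegral_lam hP i⟩ : integralClosure ℤ ℂ) ∉ Q := by
  obtain ⟨c, hc⟩ := exists_conj lam P hP
  obtain ⟨m0, hm1, hm2, hm3⟩ := exists_matching (by rw [hI]; exact even_two_mul g) lam (p ^ a) hn c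
    hc
  set q : ℕ := p ^ a with hqdef
  have hq0' : q ≠ 0 := pow_ne_zero a hp.ne_zero
  have hq0 : (q : ℂ) ≠ 0 := by exact_mod_cast hq0'
  have hq2 : 2 ≤ q := le_trans hp.two_le (Nat.le_self_pow ha.ne' p)
  let O : I → integralClosure ℤ ℂ := fun i => ⟨lam i, isIntegral_lam hP i⟩
  have hself : ∀ i, ∀ n : ℕ, 0 < n → (lam i * lam i) ^ n ≠ (q : ℂ) ^ n := fun i n hn0 h =>
    no_self hP hI hp ha hord hn c hc i n hn0 h
  -- the size of `J`
  have hmpair : ∀ i, lam i * lam (m0 i) = q := by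
    intro i
    rcases hm3 i with h | ⟨h, -⟩
    · exact h
    · exfalso
      refine hself i 1 one_pos ?_
      rw [pow_one, pow_one, ← pow_two, h]
  have hJcard : J.card ≤ g := by
    have hinj : Function.Injective m0 := fun i j h => by rw [← hm1 i, h, hm1]
    have h1 : Disjoint J (J.image m0) := by
      rw [Finset.disjoint_left]
      intro i hi h
      obtain ⟨j, hj, rfl⟩ := Finset.mem_image.1 h
      refine hJpair j hj (m0 j) hi 1 one_pos ?_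
      rw [hmpair]
    have h2 := Finset.card_le_univ (J ∪ J.image m0)
    rw [Finset.card_union_of_disjoint h1, Finset.card_image_of_injective _ hinj, hI] at h2
    omega
  have hcov : ∀ J' ⊆ J, (∀ Q : Ideal (integralClosure ℤ ℂ), Q.IsPrime → (q : integralClosure ℤ ℂ) ∈ Q → ∃ i ∈ J', O i ∈ Q) →
      IsIntegral ℤ ((∏ i ∈ J', lam i) / (q : ℂ)) := by
    intro J' _ h
    exact cover_integral hP hI hp hord hn c hc J' h
  have hnocov2 : ∀ J' ⊆ J, J'.card ≤ 2 → (∀ Q : Ideal (integralClosure ℤ ℂ), Q.IsPrime →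
      (q : integralClosure ℤ ℂ) ∈ Q → ∃ i ∈ J', O i ∈ Q) → False := by
    intro J' hJ' hcard hh
    have h1 := hcov J' hJ' hh
    rcases Nat.lt_or_ge J'.card 2 with h2 | h2
    · rcases Nat.lt_or_ge J'.card 1 with h3 | h3
      · have h4 : J' = ∅ := Finset.card_eq_zero.1 (by omega)
        obtain ⟨Q, hQ, hqQ⟩ := exists_prime hq2
        obtain ⟨i, hi, -⟩ := hh Q hQ hqQ
        rw [h4] at hi
        simp at hi
      · obtain ⟨i, rfl⟩ := Finset.card_eq_one.1 (le_antisymm (by omega) h3)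
        rw [Finset.prod_singleton] at h1
        have h4 : IsIntegral ℤ (lam i * lam i / (q : ℂ)) := by
          rw [mul_div_assoc]
          exact (isIntegral_lam hP i).mul h1
        obtain ⟨n, hn0, hn1⟩ := kron hP hq0' hn i i h4
        exact hself i n hn0 hn1
    · obtain ⟨i, j, hij, rfl⟩ := Finset.card_eq_two.1 (le_antisymm hcard h2)
      rw [Finset.prod_pair hij] at h1
      obtain ⟨n, hn0, hn1⟩ := kron hP hq0' hn i j h1
      exact hJpair i (hJ' (by simp)) j (hJ' (by simp)) n hn0 hn1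
  have hJ3 : J.card = 3 := by
    by_contra h
    exact hnocov2 J (le_refl _) (by omega) hhit
  have hg3 : g = 3 := by omega
  subst hg3
  refine ⟨hJ3, ?_, ?_⟩
  · obtain ⟨i, j, k, hij, hik, hjk, hJe⟩ := Finset.card_eq_three.1 hJ3
    have hprod3 : ∏ l, lam (![i, j, k] l) = ∏ l ∈ J, lam l := by
      rw [hJe, Fin.prod_univ_three, Finset.prod_insert (by simp [hij, hik]), Finset.prod_pair hjk]
      simp [mul_assoc]
    have hrank : ¬ ((p : ℤ) ∣ P.coeff 4 ∧ (p : ℤ) ∣ P.coeff 3) := fun h => hord h.2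
    obtain ⟨t, -, ht⟩ := Pool.Agent.Helper71.TfExotic.exotic (a := a) hI hP hp hrank hn m0
      hm1 hm2 hm3
    have hJi : i ∈ J := by rw [hJe]; simp
    have hJj : j ∈ J := by rw [hJe]; simp
    have hJk : k ∈ J := by rw [hJe]; simp
    have ht' := ht ![i, j, k] (by
      intro l l' hll
      fin_cases l <;> fin_cases l' <;> simp only [ne_eq, not_true_eq_false] at hll
      · exact ⟨hij, fun n hn0 => hJpair i hJi j hJj n hn0⟩
      · exact ⟨hik, fun n hn0 => hJpair i hJi k hJk n hn0⟩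
      · exact ⟨hij.symm, fun n hn0 => hJpair j hJj i hJi n hn0⟩
      · exact ⟨hjk, fun n hn0 => hJpair j hJj k hJk n hn0⟩
      · exact ⟨hik.symm, fun n hn0 => hJpair k hJk i hJi n hn0⟩
      · exact ⟨hjk.symm, fun n hn0 => hJpair k hJk j hJj n hn0⟩) (by
      rw [hprod3]
      exact hcov J (le_refl _) hhit)
    rw [hprod3] at ht'
    exact ⟨t, ht'⟩
  · intro l hl
    have hne : ¬ ∀ Q : Ideal (integralClosure ℤ ℂ), Q.IsPrime → (q : integralClosure ℤ ℂ) ∈ Q → ∃ i ∈ J.erase l, O i ∈ Q := by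
      intro hh
      exact hnocov2 (J.erase l) (Finset.erase_subset _ _)
        (by rw [Finset.card_erase_of_mem hl, hJ3]) hh
    push Not at hne
    exact hne

/-- the criterion: every pair free set of eigenvalues is missed by some prime over `q` -/
def Missed (q : ℕ) {I : Type*} (lam : I → ℂ) : Prop :=
  ∀ S : Set ℂ, (∀ α ∈ S, ∃ i, lam i = α) →
    (∀ α ∈ S, ∀ β ∈ S, ∀ m : ℕ, 0 < m → (α * β) ^ m ≠ (q : ℂ) ^ m) →
    ∃ Q : Ideal (integralClosure ℤ ℂ), Q.IsPrime ∧ (q : integralClosure ℤ ℂ) ∈ Q ∧ ∀ x ∈ Q, (x : ℂ) ∉ S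

/-- the two kinds of blocks -/
def IsBlock (p a : ℕ) {I : Type*} [Fintype I] (lam : I → ℂ) : Prop :=
  (∃ (g : ℕ) (P : ℤ[X]), g ≤ 3 ∧ Fintype.card I = 2 * g ∧
    ∏ i, (X - C (lam i)) = P.map (Int.castRingHom ℂ) ∧ ¬ (p : ℤ) ∣ P.coeff g) ∨
    Missed (p ^ a) lam

open scoped Classical in
/-- the choice of a good prime for one block -/
lemma block_choice {p a : ℕ} (hp : p.Prime) (ha : 0 < a) (hblock : IsBlock p a lam)
    (hint : ∀ i, IsIntegral ℤ (lam i)) (hn : ∀ i, ‖lam i‖ ^ 2 = (p ^ a : ℕ)) (J : Finset I)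
    (hJpair : ∀ i ∈ J, ∀ j ∈ J, ∀ n : ℕ, 0 < n →
      (lam i * lam j) ^ n ≠ ((p ^ a : ℕ) : ℂ) ^ n) (m : I → ℕ) :
    ∃ Q : Ideal (integralClosure ℤ ℂ), Q.IsPrime ∧ ((p ^ a : ℕ) : integralClosure ℤ ℂ) ∈ Q ∧
      ((∀ i ∈ J, (⟨lam i, hint i⟩ : integralClosure ℤ ℂ) ∉ Q) ∨
        ∃ i j k, i ≠ j ∧ i ≠ k ∧ j ≠ k ∧ J = {i, j, k} ∧
          (∃ t : ℤ, (lam i * lam j * lam k) ^ 2 - t * (p ^ a : ℕ) * (lam i * lam j * lam k) +
            ((p ^ a : ℕ) : ℂ) ^ 3 = 0) ∧ m i ≤ m j ∧ m i ≤ m k ∧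
          (⟨lam j, hint j⟩ : integralClosure ℤ ℂ) ∉ Q ∧ (⟨lam k, hint k⟩ : integralClosure ℤ ℂ) ∉ Q) := by
  by_cases hhit : ∀ Q : Ideal (integralClosure ℤ ℂ), Q.IsPrime → ((p ^ a : ℕ) : integralClosure ℤ ℂ) ∈ Q →
      ∃ i ∈ J, (⟨lam i, hint i⟩ : integralClosure ℤ ℂ) ∈ Q
  swap
  · push Not at hhit
    obtain ⟨Q, hQ, hqQ, h⟩ := hhit
    exact ⟨Q, hQ, hqQ, Or.inl h⟩
  rcases hblock with ⟨g, P, hg, hI, hP, hord⟩ | hmiss
  · obtain ⟨h3, ⟨t, ht⟩, hl⟩ := block_ord hP hI hg hp ha hord hn J hJpair hhit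
    obtain ⟨l, hlJ, hlmin⟩ := Finset.exists_min_image J m (Finset.card_pos.1 (by omega))
    obtain ⟨Q, hQ, hqQ, hQl⟩ := hl l hlJ
    have h2 : (J.erase l).card = 2 := by rw [Finset.card_erase_of_mem hlJ, h3]
    obtain ⟨j, k, hjk, hjke⟩ := Finset.card_eq_two.1 h2
    have hj : j ∈ J.erase l := by rw [hjke]; simp
    have hk : k ∈ J.erase l := by rw [hjke]; simp
    have hlj : l ≠ j := (Finset.ne_of_mem_erase hj).symm
    have hlk : l ≠ k := (Finset.ne_of_mem_erase hk).symm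
    have hJe : J = {l, j, k} := by
      rw [← Finset.insert_erase hlJ, hjke]
    refine ⟨Q, hQ, hqQ, Or.inr ⟨l, j, k, hlj, hlk, hjk, hJe, ⟨t, ?_⟩,
      hlmin j (Finset.mem_of_mem_erase hj), hlmin k (Finset.mem_of_mem_erase hk),
      hQl j hj, hQl k hk⟩⟩
    have hprod : ∏ l ∈ J, lam l = lam l * lam j * lam k := by
      rw [hJe, Finset.prod_insert (by simp [hlj, hlk]), Finset.prod_pair hjk]
      ring
    rw [hprod] at ht
    exact ht
  · exfalso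
    obtain ⟨Q, hQ, hqQ, hQS⟩ := hmiss {α | ∃ i ∈ J, lam i = α}
      (by rintro α ⟨i, -, hi⟩; exact ⟨i, hi⟩)
      (by
        rintro α ⟨i, hi, rfl⟩ β ⟨j, hj, rfl⟩ n hn0
        exact hJpair i hi j hj n hn0)
    obtain ⟨i, hi, hiQ⟩ := hhit Q hQ hqQ
    exact hQS _ hiQ ⟨i, hi, rfl⟩

end

end Pool.Agent.Helper75.GTP
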