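import Pool.Agent.Helper75.GTP.Weil

set_option autoImplicit false

namespace Pool.Agent.Helper75.GTP

section Gen

variable {K : Type*} [DecidableEq K]

omit [DecidableEq K] in
/-- the indices `T` of eigenvectors whose product is a divisor class (`c = 1`) or a Weil class of
coniveau `c` -/
def GenW (q : ℕ) (mu : K → ℂ) (c : ℕ) (T : Finset K) : Prop :=
  (T.card = 2 ∧ c = 1 ∧ ∃ m : ℕ, 0 < m ∧ (∏ i ∈ T, mu i) ^ m = (q : ℂ) ^ m) ∨
    (∃ Θ : Finset ℂ, IsWeilSet q Θ ∧ Set.InjOn mu T ∧ (∀ x ∈ T, mu x ∈ Θ) ∧
      c + (Θ.card + 1) / 2 = T.card)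

/-- `s` contains disjoint generators of total coniveau `ν` -/
inductive MatW (q : ℕ) (mu : K → ℂ) : ℕ → Finset K → Prop
  | zero (s : Finset K) : MatW q mu 0 s
  | step {c ν : ℕ} {s T : Finset K} (hT : T ⊆ s) (hg : GenW q mu c T)
      (hm : MatW q mu ν (s \ T)) : MatW q mu (c + ν) s

lemma MatW.mono_set {q : ℕ} {mu : K → ℂ} {N : ℕ} {s : Finset K} (h : MatW q mu N s) :
    ∀ {s' : Finset K}, s ⊆ s' → MatW q mu N s' := by
  induction h with
  | zero s => intro s' _; exact MatW.zero s'
  | step hT hg hm ih =>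
    intro s' hs
    exact MatW.step (hT.trans hs) hg (ih (Finset.sdiff_subset_sdiff hs (le_refl _)))

lemma MatW.union {q : ℕ} {mu : K → ℂ} {N N' : ℕ} {s s' : Finset K} (h' : MatW q mu N' s')
    (h : MatW q mu N s) : Disjoint s s' → MatW q mu (N + N') (s ∪ s') := by
  induction h with
  | zero s =>
    intro _
    rw [zero_add]
    exact h'.mono_set Finset.subset_union_right
  | @step c ν s T hT hg hm ih =>
    intro hd
    rw [add_assoc]
    refine MatW.step (hT.trans Finset.subset_union_left) hg ?_
    refine (ih (hd.mono_left Finset.sdiff_subset)).mono_set ?_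
    intro x hx
    rw [Finset.mem_union, Finset.mem_sdiff] at hx
    rw [Finset.mem_sdiff, Finset.mem_union]
    rcases hx with hx | hx
    · exact ⟨Or.inl hx.1, hx.2⟩
    · exact ⟨Or.inr hx, fun h => (Finset.disjoint_left.1 hd) (hT h) hx⟩

lemma MatW.biUnion {q : ℕ} {mu : K → ℂ} {κ : Type*} [DecidableEq κ] (B : Finset κ)
    (s : κ → Finset K) (N : κ → ℕ) (hd : ∀ j ∈ B, ∀ k ∈ B, j ≠ k → Disjoint (s j) (s k))
    (h : ∀ j ∈ B, MatW q mu (N j) (s j)) : MatW q mu (∑ j ∈ B, N j) (B.biUnion s) := by
  induction B using Finset.induction_on with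
  | empty => rw [Finset.sum_empty]; exact MatW.zero _
  | insert b B hb ih =>
    rw [Finset.sum_insert hb, Finset.biUnion_insert]
    refine MatW.union (ih ?_ ?_) (h b (Finset.mem_insert_self _ _)) ?_
    · intro j hj k hk
      exact hd j (Finset.mem_insert_of_mem hj) k (Finset.mem_insert_of_mem hk)
    · intro j hj
      exact h j (Finset.mem_insert_of_mem hj)
    · rw [Finset.disjoint_biUnion_right]
      intro j hj
      refine hd b (Finset.mem_insert_self _ _) j (Finset.mem_insert_of_mem hj) ?_
      rintro rfl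
      exact hb hj

open scoped Classical in
/-- choice of the `a` elements with the largest multiplicities -/
lemma top_subset (Θ : Finset ℂ) (m : ℂ → ℕ) (a : ℕ) (h : a ≤ Θ.card) :
    ∃ S ⊆ Θ, S.card = a ∧ ∀ α ∈ S, ∀ β ∈ Θ, β ∉ S → m β ≤ m α := by
  induction a with
  | zero => exact ⟨∅, Finset.empty_subset _, Finset.card_empty, by simp⟩
  | succ a ih =>
    obtain ⟨S, hS, hc, hm⟩ := ih (by omega)
    have hne : (Θ \ S).Nonempty := by
      rw [← Finset.card_pos, Finset.card_sdiff_of_subset hS]; omega
    obtain ⟨β0, hβ0, hmax⟩ := Finset.exists_max_image (Θ \ S) m hne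
    obtain ⟨hβΘ, hβS⟩ := Finset.mem_sdiff.1 hβ0
    refine ⟨insert β0 S, Finset.insert_subset hβΘ hS, ?_, ?_⟩
    · rw [Finset.card_insert_of_notMem hβS, hc]
    · intro α hα β hβ hβn
      rw [Finset.mem_insert, not_or] at hβn
      rcases Finset.mem_insert.1 hα with rfl | hα
      · exact hmax β (Finset.mem_sdiff.2 ⟨hβ, hβn.2⟩)
      · exact hm α hα β hβ hβn.2

open scoped Classical in
/-- peeling off the Weil classes -/
lemma peel {q : ℕ} {mu : K → ℂ} {Θ : Finset ℂ} (hΘ : IsWeilSet q Θ) (n : ℕ) :
    ∀ T : Finset K, T.card ≤ n → (∀ x ∈ T, mu x ∈ Θ) → ∀ S : Finset ℂ, S ⊆ Θ →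
      S.card = (Θ.card + 1) / 2 →
      (∀ α ∈ S, ∀ β ∈ Θ, β ∉ S → (T.filter fun x => mu x = β).card ≤
        (T.filter fun x => mu x = α).card) →
      MatW q mu (T.filter fun x => mu x ∉ S).card T := by
  induction n with
  | zero =>
    intro T hT _ S _ _ _
    have : T = ∅ := Finset.card_eq_zero.1 (Nat.le_zero.1 hT)
    subst this
    exact MatW.zero _
  | succ n ih =>
    intro T hTn hTΘ S hSΘ hScard hS
    rcases (T.filter fun x => mu x ∉ S).eq_empty_or_nonempty with hemp | ⟨x0, hx0⟩
    · rw [hemp, Finset.card_empty]; exact MatW.zero _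
    obtain ⟨hx0T, hx0S⟩ := Finset.mem_filter.1 hx0
    have hSU : S ⊆ T.image mu := by
      intro α hα
      have h1 := hS α hα (mu x0) (hTΘ x0 hx0T) hx0S
      have h2 : 0 < (T.filter fun x => mu x = mu x0).card :=
        Finset.card_pos.2 ⟨x0, Finset.mem_filter.2 ⟨hx0T, rfl⟩⟩
      obtain ⟨y, hy⟩ := Finset.card_pos.1 (lt_of_lt_of_le h2 h1)
      obtain ⟨hyT, hyα⟩ := Finset.mem_filter.1 hy
      exact Finset.mem_image.2 ⟨y, hyT, hyα⟩
    have hsec : ∀ α : ℂ, ∃ x : K, α ∈ T.image mu → x ∈ T ∧ mu x = α := by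
      intro α
      by_cases h : α ∈ T.image mu
      · obtain ⟨x, hx, hxα⟩ := Finset.mem_image.1 h
        exact ⟨x, fun _ => ⟨hx, hxα⟩⟩
      · exact ⟨x0, fun h' => (h h').elim⟩
    choose sec hsec using hsec
    set U := T.image mu with hU
    have hsecinj : Set.InjOn sec U := by
      intro α hα β hβ h
      rw [← (hsec α hα).2, ← (hsec β hβ).2, h]
    set T0 := U.image sec with hT0
    have hT0T : T0 ⊆ T := by
      intro x hx
      obtain ⟨α, hα, rfl⟩ := Finset.mem_image.1 hx
      exact (hsec α hα).1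
    have hT0card : T0.card = U.card := Finset.card_image_of_injOn hsecinj
    have hT0inj : Set.InjOn mu T0 := by
      intro x hx y hy h
      rw [Finset.mem_coe] at hx hy
      obtain ⟨α, hα, rfl⟩ := Finset.mem_image.1 hx
      obtain ⟨β, hβ, rfl⟩ := Finset.mem_image.1 hy
      rw [(hsec α hα).2, (hsec β hβ).2] at h
      rw [h]
    have hfil : ∀ α, (T0.filter fun x => mu x = α) = if α ∈ U then {sec α} else ∅ := by
      intro α
      split_ifs with h
      · ext x
        rw [Finset.mem_filter, Finset.mem_singleton]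
        constructor
        · rintro ⟨hx, rfl⟩
          obtain ⟨β, hβ, rfl⟩ := Finset.mem_image.1 hx
          rw [(hsec β hβ).2]
        · rintro rfl
          exact ⟨Finset.mem_image_of_mem _ h, (hsec α h).2⟩
      · rw [Finset.filter_eq_empty_iff]
        intro x hx hxα
        apply h
        rw [← hxα]
        exact Finset.mem_image_of_mem _ (hT0T hx)
    have hmult : ∀ α, ((T \ T0).filter fun x => mu x = α).card =
        (T.filter fun x => mu x = α).card - (if α ∈ U then 1 else 0) := by
      intro α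
      have h1 : (T \ T0).filter (fun x => mu x = α) =
          (T.filter fun x => mu x = α) \ (T0.filter fun x => mu x = α) := by
        ext x
        simp only [Finset.mem_filter, Finset.mem_sdiff]
        tauto
      rw [h1, Finset.card_sdiff_of_subset (Finset.filter_subset_filter _ hT0T), hfil]
      split_ifs <;> simp
    have hcard' : (T \ T0).card ≤ n := by
      have h1 : 0 < T0.card := by
        rw [hT0card, Finset.card_pos]
        exact ⟨mu x0, Finset.mem_image_of_mem _ hx0T⟩
      rw [Finset.card_sdiff_of_subset hT0T]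
      omega
    have hrec := ih (T \ T0) hcard' (fun x hx => hTΘ x (Finset.mem_sdiff.1 hx).1) S hSΘ hScard (by
      intro α hα β hβ hβS
      rw [hmult, hmult, if_pos (hSU hα)]
      have h1 := hS α hα β hβ hβS
      by_cases hβU : β ∈ U
      · rw [if_pos hβU]; omega
      · rw [if_neg hβU]
        have h2 : (T.filter fun x => mu x = β).card = 0 := by
          rw [Finset.card_eq_zero, Finset.filter_eq_empty_iff]
          intro x hx hxβ
          apply hβU
          rw [← hxβ]
          exact Finset.mem_image_of_mem _ hx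
        omega)
    have hcount : (T.filter fun x => mu x ∉ S).card = (U \ S).card +
        ((T \ T0).filter fun x => mu x ∉ S).card := by
      have h1 : (T \ T0).filter (fun x => mu x ∉ S) =
          (T.filter fun x => mu x ∉ S) \ (T0.filter fun x => mu x ∉ S) := by
        ext x
        simp only [Finset.mem_filter, Finset.mem_sdiff]
        tauto
      have h2 : (T0.filter fun x => mu x ∉ S) = (U \ S).image sec := by
        ext x
        constructor
        · intro hx'
          obtain ⟨hx, hxS⟩ := Finset.mem_filter.1 hx'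
          obtain ⟨α, hα, rfl⟩ := Finset.mem_image.1 hx
          rw [(hsec α hα).2] at hxS
          exact Finset.mem_image.2 ⟨α, Finset.mem_sdiff.2 ⟨hα, hxS⟩, rfl⟩
        · intro hx'
          obtain ⟨α, hα, rfl⟩ := Finset.mem_image.1 hx'
          obtain ⟨hαU, hαS⟩ := Finset.mem_sdiff.1 hα
          exact Finset.mem_filter.2 ⟨Finset.mem_image_of_mem _ hαU, by rwa [(hsec α hαU).2]⟩
      have h3 : (T0.filter fun x => mu x ∉ S).card = (U \ S).card := by
        rw [h2]
        refine Finset.card_image_of_injOn (hsecinj.mono ?_)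
        intro α hα
        exact (Finset.mem_sdiff.1 (Finset.mem_coe.1 hα)).1
      have h4 : (T0.filter fun x => mu x ∉ S).card ≤ (T.filter fun x => mu x ∉ S).card :=
        Finset.card_le_card (Finset.filter_subset_filter _ hT0T)
      rw [h1, Finset.card_sdiff_of_subset (Finset.filter_subset_filter _ hT0T)]
      omega
    rw [hcount]
    refine MatW.step hT0T (Or.inr ⟨Θ, hΘ, hT0inj, fun x hx => hTΘ x (hT0T hx), ?_⟩) hrec
    rw [← hScard, hT0card, Finset.card_sdiff_of_subset hSU]
    have := Finset.card_le_card hSU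
    omega

end Gen

end Pool.Agent.Helper75.GTP
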