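import Pool.Agent.Helper75.GTP.MatW

set_option autoImplicit false

namespace Pool.Agent.Helper75.GTP

section

variable {K : Type*} [DecidableEq K]

omit [DecidableEq K] in
/-- the key relation in the absence of pairs -/
lemma key_relation {q : ℕ} (hq : (q : ℂ) ≠ 0) {mu : K → ℂ} {s : Finset K} {ν : ℕ}
    (A B : Finset K) (hAB : ∏ x ∈ s, mu x = (∏ x ∈ A, mu x) * ∏ x ∈ B, mu x)
    (hB : B.card ≤ 1) (hss : ∀ x ∈ B, ∃ m : ℕ, 0 < m ∧ (mu x * mu x) ^ m = (q : ℂ) ^ m)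
    (hint : IsIntegral ℤ ((∏ i ∈ s, mu i) / (q : ℂ) ^ (ν + 1))) :
    ∃ m : ℕ, 0 < m ∧ ∃ z : integralClosure ℤ ℂ,
      (∏ x ∈ A, mu x) ^ (2 * m) = (q : ℂ) ^ (m * (2 * ν + 1)) * (z : ℂ) := by
  set z0 : integralClosure ℤ ℂ := ⟨_, hint⟩ with hz0
  have hz : ∏ i ∈ s, mu i = (q : ℂ) ^ (ν + 1) * (z0 : ℂ) := by
    change _ = (q : ℂ) ^ (ν + 1) * ((∏ i ∈ s, mu i) / (q : ℂ) ^ (ν + 1))
    field_simp
  rcases Nat.eq_zero_or_pos B.card with hB0 | hB0
  · rw [Finset.card_eq_zero] at hB0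
    rw [hB0, Finset.prod_empty, mul_one] at hAB
    refine ⟨1, one_pos, (q : integralClosure ℤ ℂ) * z0 ^ 2, ?_⟩
    rw [← hAB, hz]
    push_cast
    ring
  · obtain ⟨k, hk⟩ := Finset.card_eq_one.1 (le_antisymm hB hB0)
    obtain ⟨m, hm, hkm⟩ := hss k (by rw [hk]; simp)
    rw [hk, Finset.prod_singleton] at hAB
    refine ⟨m, hm, z0 ^ (2 * m), ?_⟩
    have h1 : (∏ x ∈ A, mu x) ^ (2 * m) * (q : ℂ) ^ m =
        ((q : ℂ) ^ (m * (2 * ν + 1)) * (z0 : ℂ) ^ (2 * m)) * (q : ℂ) ^ m := by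
      calc (∏ x ∈ A, mu x) ^ (2 * m) * (q : ℂ) ^ m
          = ((∏ x ∈ A, mu x) * mu k) ^ (2 * m) := by rw [← hkm]; ring
        _ = ((q : ℂ) ^ (ν + 1) * (z0 : ℂ)) ^ (2 * m) := by rw [← hAB, hz]
        _ = _ := by ring
    push_cast
    exact mul_right_cancel₀ (pow_ne_zero _ hq) h1

omit [DecidableEq K] in
lemma pow_quotW {K : Type*} [DecidableEq K] {q : ℕ} (hq : (q : ℂ) ≠ 0) {mu : K → ℂ} {ν : ℕ}
    {s T : Finset K} (hT : T ⊆ s) {m : ℕ}
    (hm : (∏ i ∈ T, mu i) ^ m = (q : ℂ) ^ m) :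
    ((∏ k ∈ s, mu k) / (q : ℂ) ^ (ν + 1)) ^ m =
      ((∏ k ∈ s \ T, mu k) / (q : ℂ) ^ ν) ^ m := by
  rw [← Finset.prod_sdiff hT, div_pow, div_pow, mul_pow, hm]
  field_simp
  ring

open scoped Classical in
/-- one block, with many elements of the Weil set `Θ` -/
lemma block_core {q : ℕ} {mu : K → ℂ} {A : Finset K} {Θ : Finset ℂ} (hΘ : IsWeilSet q Θ)
    (hn : ∀ x ∈ A, mu x * (starRingEnd ℂ) (mu x) = q)
    (hpf : PairFree q (A.image mu : Finset ℂ))
    (hmiss : ∀ S ⊆ A.image mu, (S ∩ Θ).card ≤ (Θ.card + 1) / 2 →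
      (S ∩ Θ.image (starRingEnd ℂ)).card ≤ (Θ.card + 1) / 2 → ¬ Hit q (S : Finset ℂ))
    (hgt : (Θ.card + 1) / 2 < (A.image mu ∩ Θ).card) :
    ∃ (Q : Ideal (integralClosure ℤ ℂ)) (R T : Finset K), Q.IsPrime ∧
      (q : integralClosure ℤ ℂ) ∈ Q ∧ R ⊆ A ∧ T ⊆ A ∧ MatW q mu R.card T ∧
      ∀ x ∈ A, x ∉ R → ∀ z ∈ Q, (z : ℂ) ≠ mu x := by
  set a := (Θ.card + 1) / 2 with ha
  set S := A.image mu with hS
  obtain ⟨S0, hS0, hS0card, hS0m⟩ := top_subset (S ∩ Θ) (fun α => (A.filter fun x => mu x = α).card)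
    a hgt.le
  have hS0S : S0 ⊆ S := hS0.trans Finset.inter_subset_left
  have hS0Θ : S0 ⊆ Θ := hS0.trans Finset.inter_subset_right
  have h1 : (S0 ∪ (S \ Θ)) ∩ Θ = S0 := by
    ext x
    simp only [Finset.mem_inter, Finset.mem_union, Finset.mem_sdiff]
    constructor
    · rintro ⟨h | h, h2⟩
      · exact h
      · exact (h.2 h2).elim
    · intro h
      exact ⟨Or.inl h, hS0Θ h⟩
  have h2 : ((S0 ∪ (S \ Θ)) ∩ Θ.image (starRingEnd ℂ)).card ≤ a := by
    have h3 : ((S0 ∪ (S \ Θ)) ∩ Θ.image (starRingEnd ℂ)).card ≤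
        (S ∩ Θ.image (starRingEnd ℂ)).card := by
      refine Finset.card_le_card (Finset.inter_subset_inter ?_ (le_refl _))
      exact Finset.union_subset hS0S Finset.sdiff_subset
    have h4 : (S ∩ Θ.image (starRingEnd ℂ)).card + (S ∩ Θ).card ≤ Θ.card := by
      rw [← Finset.card_image_of_injective (S ∩ Θ.image (starRingEnd ℂ)) conj_inj,
        ← Finset.card_union_of_disjoint]
      · refine Finset.card_le_card ?_
        refine Finset.union_subset ?_ Finset.inter_subset_right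
        intro x hx
        obtain ⟨y, hy, rfl⟩ := Finset.mem_image.1 hx
        obtain ⟨hyS, hyΘ⟩ := Finset.mem_inter.1 hy
        obtain ⟨z, hz, rfl⟩ := Finset.mem_image.1 hyΘ
        rw [Complex.conj_conj]
        exact hz
      · rw [Finset.disjoint_left]
        intro x hx hx'
        obtain ⟨y, hy, rfl⟩ := Finset.mem_image.1 hx
        obtain ⟨hyS, -⟩ := Finset.mem_inter.1 hy
        obtain ⟨hxS, -⟩ := Finset.mem_inter.1 hx'
        obtain ⟨w, hw, hwy⟩ := Finset.mem_image.1 hyS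
        refine hpf y (Finset.mem_coe.2 hyS) _ (Finset.mem_coe.2 hxS) 1 one_pos ?_
        rw [pow_one, pow_one, ← hwy]
        exact hn w hw
    omega
  have h3 : ¬ Hit q ((S0 ∪ (S \ Θ) : Finset ℂ) : Set ℂ) := by
    refine hmiss _ (Finset.union_subset hS0S Finset.sdiff_subset) ?_ h2
    rw [h1, hS0card]
  unfold Hit at h3
  push Not at h3
  obtain ⟨Q, hQ, hqQ, hQm⟩ := h3
  let T := A.filter fun x => mu x ∈ Θ
  have hTm : ∀ α ∈ Θ, (T.filter fun x => mu x = α) = A.filter fun x => mu x = α := by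
    intro α hα
    ext x
    simp only [T, Finset.mem_filter]
    constructor
    · rintro ⟨⟨h1, -⟩, h2⟩; exact ⟨h1, h2⟩
    · rintro ⟨h1, h2⟩; exact ⟨⟨h1, h2 ▸ hα⟩, h2⟩
  have hpeel := peel hΘ T.card T (le_refl _) (fun x hx => (Finset.mem_filter.1 hx).2) S0 hS0Θ
    hS0card (by
    intro α hα β hβ hβS
    rw [hTm α (hS0Θ hα), hTm β hβ]
    by_cases hβS' : β ∈ S
    · exact hS0m α hα β (Finset.mem_inter.2 ⟨hβS', hβ⟩) hβS
    · have h2 : (A.filter fun x => mu x = β).card = 0 := by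
        rw [Finset.card_eq_zero, Finset.filter_eq_empty_iff]
        intro x hx hxβ
        apply hβS'
        rw [← hxβ]
        exact Finset.mem_image_of_mem _ hx
      omega)
  refine ⟨Q, T.filter fun x => mu x ∉ S0, T, hQ, hqQ,
    (Finset.filter_subset _ _).trans (Finset.filter_subset _ _), Finset.filter_subset _ _,
    hpeel, ?_⟩
  intro x hx hxR z hz hzx
  refine hQm z hz ?_
  rw [hzx, Finset.mem_coe, Finset.mem_union, Finset.mem_sdiff]
  by_cases hxΘ : mu x ∈ Θ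
  · left
    by_contra hxS0
    exact hxR (Finset.mem_filter.2 ⟨Finset.mem_filter.2 ⟨hx, hxΘ⟩, hxS0⟩)
  · right
    exact ⟨Finset.mem_image_of_mem _ hx, hxΘ⟩

open scoped Classical in
/-- one block -/
lemma block_data {q : ℕ} {mu : K → ℂ} {A : Finset K} {Θ : Finset ℂ} (hΘ : IsWeilSet q Θ)
    (hn : ∀ x ∈ A, mu x * (starRingEnd ℂ) (mu x) = q)
    (hpf : PairFree q (A.image mu : Finset ℂ))
    (hmiss : ∀ S ⊆ A.image mu, (S ∩ Θ).card ≤ (Θ.card + 1) / 2 →
      (S ∩ Θ.image (starRingEnd ℂ)).card ≤ (Θ.card + 1) / 2 → ¬ Hit q (S : Finset ℂ)) :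
    ∃ (Q : Ideal (integralClosure ℤ ℂ)) (R T : Finset K), Q.IsPrime ∧
      (q : integralClosure ℤ ℂ) ∈ Q ∧ R ⊆ A ∧ T ⊆ A ∧ MatW q mu R.card T ∧
      ∀ x ∈ A, x ∉ R → ∀ z ∈ Q, (z : ℂ) ≠ mu x := by
  have himg : Θ.map ⟨starRingEnd ℂ, conj_inj⟩ = Θ.image (starRingEnd ℂ) := by
    ext x; simp
  have hcc : (Θ.image (starRingEnd ℂ)).image (starRingEnd ℂ) = Θ := by
    rw [Finset.image_image]
    conv_rhs => rw [← Finset.image_id (s := Θ)]
    refine Finset.image_congr ?_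
    intro x _
    simp
  have hc : (Θ.image (starRingEnd ℂ)).card = Θ.card :=
    Finset.card_image_of_injective _ conj_inj
  by_cases h1 : (A.image mu ∩ Θ).card ≤ (Θ.card + 1) / 2
  · by_cases h2 : (A.image mu ∩ Θ.image (starRingEnd ℂ)).card ≤ (Θ.card + 1) / 2
    · have h3 := hmiss _ (le_refl _) h1 h2
      unfold Hit at h3
      push Not at h3
      obtain ⟨Q, hQ, hqQ, hQm⟩ := h3
      refine ⟨Q, ∅, ∅, hQ, hqQ, Finset.empty_subset _, Finset.empty_subset _, ?_, ?_⟩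
      · rw [Finset.card_empty]; exact MatW.zero _
      · intro x hx _ z hz hzx
        refine hQm z hz ?_
        rw [hzx]
        exact Finset.mem_coe.2 (Finset.mem_image_of_mem _ hx)
    · push Not at h2
      have hΘ' := hΘ.conj
      rw [himg] at hΘ'
      refine block_core hΘ' hn hpf ?_ ?_
      · intro S hS g1 g2
        rw [hc] at g1 g2
        rw [hcc] at g2
        exact hmiss S hS g2 g1
      · rw [hc]; exact h2
  · push Not at h1
    exact block_core hΘ hn hpf hmiss h1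

variable {κ : Type*} [Fintype κ]

open scoped Classical in
/-- integral monomials contain many generators -/
lemma mat_of_integralW {q : ℕ} (hq0 : (q : ℂ) ≠ 0)
    (Z : κ → Set ℂ) (Θ : κ → Finset ℂ) (hΘ : ∀ j, IsWeilSet q (Θ j))
    (hZ : ∀ j, ∀ α ∈ Z j, IsIntegral ℤ α ∧ α * (starRingEnd ℂ) α = q)
    (hmiss : ∀ j, ∀ S : Finset ℂ, (S : Set ℂ) ⊆ Z j → PairFree q S →
      (S ∩ Θ j).card ≤ ((Θ j).card + 1) / 2 →
      (S ∩ (Θ j).image (starRingEnd ℂ)).card ≤ ((Θ j).card + 1) / 2 → ¬ Hit q (S : Set ℂ))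
    (hind : ∀ Qs : κ → Ideal (integralClosure ℤ ℂ),
      (∀ j, (Qs j).IsPrime ∧ (q : integralClosure ℤ ℂ) ∈ Qs j) →
      ∃ Q : Ideal (integralClosure ℤ ℂ), Q.IsPrime ∧ (q : integralClosure ℤ ℂ) ∈ Q ∧
        ∀ j, ∀ x : integralClosure ℤ ℂ, (x : ℂ) ∈ Z j → (x ∈ Q ↔ x ∈ Qs j))
    (mu : K → ℂ) (idx : K → Option κ) (hmu : ∀ x j, idx x = some j → mu x ∈ Z j)
    (hss : ∀ x, idx x = none → ∃ m : ℕ, 0 < m ∧ (mu x * mu x) ^ m = (q : ℂ) ^ m)
    (ν : ℕ) :
    ∀ s : Finset K, IsIntegral ℤ ((∏ i ∈ s, mu i) / (q : ℂ) ^ ν) →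
      ∃ N, ν ≤ N ∧ MatW q mu N s := by
  induction ν with
  | zero => intro s _; exact ⟨0, le_refl _, MatW.zero s⟩
  | succ ν ih =>
    intro s hsint
    by_cases hpair : ∃ T ⊆ s, T.card = 2 ∧ ∃ m : ℕ, 0 < m ∧ (∏ i ∈ T, mu i) ^ m = (q : ℂ) ^ m
    · obtain ⟨T, hT, hc2, m, hm, hTm⟩ := hpair
      obtain ⟨N, hN, hNm⟩ := ih (s \ T) (by
        refine IsIntegral.of_pow hm ?_
        rw [← pow_quotW hq0 hT hTm]
        exact hsint.pow m)
      exact ⟨1 + N, by omega, MatW.step hT (Or.inl ⟨hc2, rfl, m, hm, hTm⟩) hNm⟩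
    -- no pairs
    have hnp : ∀ x ∈ s, ∀ y ∈ s, x ≠ y → ∀ m : ℕ, 0 < m → (mu x * mu y) ^ m ≠ (q : ℂ) ^ m := by
      intro x hx y hy hxy m hm h
      apply hpair
      refine ⟨{x, y}, ?_, Finset.card_pair hxy, m, hm, by rw [Finset.prod_pair hxy]; exact h⟩
      intro w hw
      simp only [Finset.mem_insert, Finset.mem_singleton] at hw
      rcases hw with rfl | rfl
      · exact hx
      · exact hy
    let sq : K → Prop := fun x => ∃ m : ℕ, 0 < m ∧ (mu x * mu x) ^ m = (q : ℂ) ^ m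
    let A : Finset K := s.filter fun x => ¬ sq x
    let B : Finset K := s.filter fun x => sq x
    have hAB : ∏ x ∈ s, mu x = (∏ x ∈ A, mu x) * ∏ x ∈ B, mu x := by
      rw [mul_comm]
      exact (Finset.prod_filter_mul_prod_filter_not s _ _).symm
    have hAs : A ⊆ s := Finset.filter_subset _ _
    have hBs : ∀ x ∈ B, sq x := fun x hx => (Finset.mem_filter.1 hx).2
    have hAs' : ∀ x ∈ A, ¬ sq x := fun x hx => (Finset.mem_filter.1 hx).2
    have hB : B.card ≤ 1 := by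
      rw [Finset.card_le_one]
      intro x hx y hy
      by_contra hxy
      obtain ⟨m, hm, h1⟩ := hBs x hx
      obtain ⟨m', hm', h2⟩ := hBs y hy
      refine hnp x (Finset.mem_filter.1 hx).1 y (Finset.mem_filter.1 hy).1 hxy (2 * m * m')
        (by positivity) ?_
      calc (mu x * mu y) ^ (2 * m * m') = ((mu x * mu x) ^ m) ^ m' * ((mu y * mu y) ^ m') ^ m := by
            ring
        _ = (q : ℂ) ^ (2 * m * m') := by rw [h1, h2]; ring
    obtain ⟨m, hm, z, hkey⟩ := key_relation hq0 A B hAB hB hBs hsint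
    have hAidx : ∀ x ∈ A, ∃ j, idx x = some j := by
      intro x hx
      have h1 : idx x ≠ none := fun h => hAs' x hx (hss x h)
      exact Option.ne_none_iff_exists'.1 h1
    have hAZ : ∀ x ∈ A, IsIntegral ℤ (mu x) ∧ mu x * (starRingEnd ℂ) (mu x) = q := by
      intro x hx
      obtain ⟨j, hj⟩ := hAidx x hx
      exact hZ j _ (hmu x j hj)
    let M : K → integralClosure ℤ ℂ := fun x => if h : x ∈ A then ⟨mu x, (hAZ x h).1⟩ else 1
    let M' : K → integralClosure ℤ ℂ := fun x => if h : x ∈ A then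
      ⟨(starRingEnd ℂ) (mu x), (hAZ x h).1.map (starRingEnd ℂ).toIntAlgHom⟩ else 1
    have hM : ∀ x ∈ A, ((M x : integralClosure ℤ ℂ) : ℂ) = mu x := by
      intro x hx
      simp only [M, hx, dif_pos]
    have hM' : ∀ x ∈ A, ((M' x : integralClosure ℤ ℂ) : ℂ) = (starRingEnd ℂ) (mu x) := by
      intro x hx
      simp only [M', hx, dif_pos]
    have hMM : ∀ x ∈ A, M x * M' x = (q : integralClosure ℤ ℂ) := by
      intro x hx
      apply Subtype.ext
      push_cast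
      rw [hM x hx, hM' x hx]
      exact (hAZ x hx).2
    have hMprod : ((∏ x ∈ A, M x : integralClosure ℤ ℂ) : ℂ) = ∏ x ∈ A, mu x := by
      push_cast
      exact Finset.prod_congr rfl fun x hx => hM x hx
    have hkeyO : (∏ x ∈ A, M x) ^ (2 * m) =
        (q : integralClosure ℤ ℂ) ^ (m * (2 * ν + 1)) * z := by
      apply Subtype.ext
      push_cast
      push_cast at hMprod
      rw [hMprod]
      exact hkey
    let blk : κ → Finset K := fun j => A.filter fun x => idx x = some j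
    have hblk : ∀ j x, x ∈ blk j ↔ x ∈ A ∧ idx x = some j := by
      intro j x
      simp only [blk, Finset.mem_filter]
    have hblkd : ∀ j k, j ≠ k → Disjoint (blk j) (blk k) := by
      intro j k hjk
      rw [Finset.disjoint_left]
      intro x hx hx'
      obtain ⟨-, hi⟩ := (hblk j x).1 hx
      obtain ⟨-, hi'⟩ := (hblk k x).1 hx'
      rw [hi] at hi'
      exact hjk (Option.some_injective _ hi')
    have hdata : ∀ j, ∃ (Q : Ideal (integralClosure ℤ ℂ)) (R T : Finset K), Q.IsPrime ∧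
        (q : integralClosure ℤ ℂ) ∈ Q ∧ R ⊆ blk j ∧ T ⊆ blk j ∧ MatW q mu R.card T ∧
        ∀ x ∈ blk j, x ∉ R → ∀ z ∈ Q, (z : ℂ) ≠ mu x := by
      intro j
      have hpf : PairFree q ((blk j).image mu : Finset ℂ) := by
        intro α hα β hβ n hn0
        rw [Finset.mem_coe] at hα hβ
        obtain ⟨x, hx, rfl⟩ := Finset.mem_image.1 hα
        obtain ⟨y, hy, rfl⟩ := Finset.mem_image.1 hβ
        by_cases hxy : x = y
        · subst hxy
          intro h
          exact hAs' x ((hblk j x).1 hx).1 ⟨n, hn0, h⟩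
        · exact hnp x (hAs ((hblk j x).1 hx).1) y (hAs ((hblk j y).1 hy).1) hxy n hn0
      refine block_data (hΘ j) (fun x hx => (hAZ x ((hblk j x).1 hx).1).2) hpf ?_
      intro S hS h1 h2
      refine hmiss j S ?_ ?_ h1 h2
      · intro α hα
        obtain ⟨x, hx, rfl⟩ := Finset.mem_image.1 (hS (Finset.mem_coe.1 hα))
        exact hmu x j ((hblk j x).1 hx).2
      · intro α hα β hβ
        exact hpf α (Finset.mem_coe.2 (hS (Finset.mem_coe.1 hα))) β
          (Finset.mem_coe.2 (hS (Finset.mem_coe.1 hβ)))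
    choose Qs R T hQs hqQs hR hT hMat hout using hdata
    obtain ⟨Q, hQ, hqQ, hQi⟩ := hind Qs fun j => ⟨hQs j, hqQs j⟩
    -- the union of all the `R j`
    let RR : Finset K := Finset.univ.biUnion R
    have hRdis : ∀ j ∈ (Finset.univ : Finset κ), ∀ k ∈ (Finset.univ : Finset κ), j ≠ k →
        Disjoint (R j) (R k) := fun j _ k _ hjk => (hblkd j k hjk).mono (hR j) (hR k)
    have hTdis : ∀ j ∈ (Finset.univ : Finset κ), ∀ k ∈ (Finset.univ : Finset κ), j ≠ k →
        Disjoint (T j) (T k) := fun j _ k _ hjk => (hblkd j k hjk).mono (hT j) (hT k)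
    have hblkA : ∀ j, blk j ⊆ A := fun j => Finset.filter_subset _ _
    have hRRA : RR ⊆ A := by
      intro x hx
      obtain ⟨j, -, hj⟩ := Finset.mem_biUnion.1 hx
      exact hblkA j (hR j hj)
    have hRRcard : RR.card = ∑ j, (R j).card := Finset.card_biUnion hRdis
    set u := ∏ x ∈ A \ RR, M x with hu
    have huQ : u ∉ Q := by
      rw [hu, hQ.prod_mem_iff]
      rintro ⟨x, hx, hxQ⟩
      obtain ⟨hxA, hxR⟩ := Finset.mem_sdiff.1 hx
      obtain ⟨j, hj⟩ := hAidx x hxA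
      have hxb : x ∈ blk j := (hblk j x).2 ⟨hxA, hj⟩
      have hxRj : x ∉ R j := fun h => hxR (Finset.mem_biUnion.2 ⟨j, Finset.mem_univ _, h⟩)
      refine hout j x hxb hxRj (M x) ?_ (hM x hxA)
      exact (hQi j (M x) (by rw [hM x hxA]; exact hmu x j hj)).1 hxQ
    have hsplit : ∏ x ∈ A, M x = (∏ x ∈ RR, M x) * u := by
      rw [hu, mul_comm]
      exact (Finset.prod_sdiff hRRA).symm
    have hWW : (∏ x ∈ RR, M x) * ∏ x ∈ RR, M' x = (q : integralClosure ℤ ℂ) ^ RR.card := by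
      rw [← Finset.prod_mul_distrib, Finset.prod_congr rfl fun x hx => hMM x (hRRA hx),
        Finset.prod_const]
    have hqO : (q : integralClosure ℤ ℂ) ≠ 0 := by
      intro h
      apply hq0
      have := congrArg (fun x : integralClosure ℤ ℂ => (x : ℂ)) h
      push_cast at this
      exact this
    have hW0 : (∏ x ∈ RR, M x) ≠ 0 := by
      intro h
      rw [h, zero_mul] at hWW
      exact pow_ne_zero _ hqO hWW.symm
    have htotal : ν + 1 ≤ RR.card := by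
      by_contra hlt
      push Not at hlt
      obtain ⟨d, hd⟩ : ∃ d, ν = RR.card + d := ⟨ν - RR.card, by omega⟩
      have h1 : (∏ x ∈ RR, M x) ^ (2 * m) * u ^ (2 * m) = (∏ x ∈ RR, M x) ^ (2 * m) *
          ((∏ x ∈ RR, M' x) ^ (2 * m) * (q : integralClosure ℤ ℂ) ^ (m * (2 * d + 1)) * z) := by
        have h2 := hkeyO
        rw [hsplit, mul_pow] at h2
        rw [h2]
        have h3 : m * (2 * ν + 1) = RR.card * (2 * m) + m * (2 * d + 1) := by
          rw [hd]; ring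
        rw [h3, pow_add, pow_mul, ← hWW, mul_pow]
        ring
      have h2 := mul_left_cancel₀ (pow_ne_zero _ hW0) h1
      have h3 : u ^ (2 * m) ∈ Q := by
        rw [h2]
        exact Q.mul_mem_right _ (Q.mul_mem_left _ (Q.pow_mem_of_mem hqQ _ (by positivity)))
      exact huQ (hQ.mem_of_pow_mem _ h3)
    have hmat := MatW.biUnion (q := q) (mu := mu) Finset.univ T (fun j => (R j).card) hTdis
      (fun j _ => hMat j)
    refine ⟨∑ j, (R j).card, by rw [← hRRcard]; exact htotal, hmat.mono_set ?_⟩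
    intro x hx
    obtain ⟨j, -, hj⟩ := Finset.mem_biUnion.1 hx
    exact hAs (hblkA j (hT j hj))

end

end Pool.Agent.Helper75.GTP
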