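import Pool.Agent.Helper75.GTP.Block

set_option autoImplicit false

namespace Pool.Agent.Helper75.GTP

open Polynomial Pool.Agent.Helper71.TfCore Pool.Agent.Helper71.TfMatch
  Pool.Agent.Helper71.TfField

open scoped Classical in
/-- Weil sets -/
def IsWeilSet (q : ℕ) (Θ : Finset ℂ) : Prop :=
  (∀ α ∈ Θ, IsIntegral ℤ α ∧ ‖α‖ ^ 2 = q ∧ (starRingEnd ℂ) α ∉ Θ) ∧
    (∀ σ : ℂ ≃+* ℂ, Θ.image σ = Θ ∨ Θ.image σ = Θ.image (starRingEnd ℂ)) ∧
    IsIntegral ℤ ((∏ α ∈ Θ, α) / (q : ℂ) ^ (Θ.card / 2))

/-- no two elements (equal or not) have product `q` times a root of unity -/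
def PairFree (q : ℕ) (S : Set ℂ) : Prop :=
  ∀ α ∈ S, ∀ β ∈ S, ∀ m : ℕ, 0 < m → (α * β) ^ m ≠ (q : ℂ) ^ m

/-- all primes over `q` contain an element of `S` -/
def Hit (q : ℕ) (S : Set ℂ) : Prop :=
  ∀ Q : Ideal (integralClosure ℤ ℂ), Q.IsPrime → (q : integralClosure ℤ ℂ) ∈ Q →
    ∃ x ∈ Q, (x : ℂ) ∈ S

lemma conj_inj : Function.Injective (starRingEnd ℂ) := star_injective

lemma IsWeilSet.empty (q : ℕ) : IsWeilSet q ∅ := by
  classical
  refine ⟨by simp, fun σ => Or.inl (by simp), ?_⟩
  simp only [Finset.prod_empty, Finset.card_empty, Nat.zero_div, pow_zero, div_one]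
  exact isIntegral_one

lemma IsWeilSet.conj {q : ℕ} {Θ : Finset ℂ} (h : IsWeilSet q Θ) :
    IsWeilSet q (Θ.map ⟨starRingEnd ℂ, conj_inj⟩) := by
  classical
  have himg : Θ.map ⟨starRingEnd ℂ, conj_inj⟩ = Θ.image (starRingEnd ℂ) := by
    ext x; simp
  have hcc : (Θ.image (starRingEnd ℂ)).image (starRingEnd ℂ) = Θ := by
    rw [Finset.image_image]
    conv_rhs => rw [← Finset.image_id (s := Θ)]
    refine Finset.image_congr ?_
    intro x _
    simp
  obtain ⟨h1, h2, h3⟩ := h
  rw [himg]
  refine ⟨?_, ?_, ?_⟩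
  · intro α hα
    obtain ⟨β, hβ, rfl⟩ := Finset.mem_image.1 hα
    obtain ⟨g1, g2, g3⟩ := h1 β hβ
    refine ⟨g1.map (starRingEnd ℂ).toIntAlgHom, by rw [Complex.norm_conj]; exact g2, ?_⟩
    intro hα'
    rw [Complex.conj_conj] at hα'
    obtain ⟨γ, hγ, hγβ⟩ := Finset.mem_image.1 hα'
    refine g3 ?_
    rw [← hγβ, Complex.conj_conj]
    exact hγ
  · intro σ
    have key : ∀ τ : ℂ ≃+* ℂ, (∀ z, τ z = σ ((starRingEnd ℂ) z)) →
        (Θ.image (starRingEnd ℂ)).image σ = Θ.image τ := by
      intro τ hτ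
      rw [Finset.image_image]
      refine Finset.image_congr ?_
      intro x _
      simp [hτ]
    have h4 := key (Complex.conjAe.toRingEquiv.trans σ) (fun z => rfl)
    rcases h2 (Complex.conjAe.toRingEquiv.trans σ) with h5 | h5
    · right
      rw [h4, h5, hcc]
    · left
      rw [h4, h5]
  · rw [Finset.card_image_of_injective _ conj_inj, Finset.prod_image fun x _ y _ h => conj_inj h]
    have h4 : (∏ α ∈ Θ, (starRingEnd ℂ) α) / (q : ℂ) ^ (Θ.card / 2) =
        (starRingEnd ℂ) ((∏ α ∈ Θ, α) / (q : ℂ) ^ (Θ.card / 2)) := by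
      rw [map_div₀, map_prod, map_pow, map_natCast]
    rw [h4]
    exact h3.map (starRingEnd ℂ).toIntAlgHom

/-- uniqueness of the exotic triple up to complex conjugation -/
lemma unique_triple {q : ℕ} (hq : q ≠ 0) {s : Fin 3 → ℂ} (hs : Trip q s)
    (hst : Star q s) {r : Fin 3 → ℂ} (hr : ∀ l, ∃ l', r l = s l' ∨ r l = (q : ℂ) / s l')
    (hr2 : ∀ l l', l ≠ l' → r l ≠ r l' ∧ r l * r l' ≠ q) (hr3 : Star q r) :
    (∀ l, ∃ l', r l = s l') ∨ (∀ l, ∃ l', r l = (q : ℂ) / s l') := by
  have hqL : (q : ℂ) ≠ 0 := by exact_mod_cast hq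
  choose t ht using hr
  have hinj : Function.Injective t := by
    intro l l' hll
    by_contra hne
    have h1 := ht l
    have h2 := ht l'
    rw [hll] at h1
    obtain ⟨g1, g2⟩ := hr2 l l' hne
    have h0 := hs.ne (t l')
    rcases h1 with h1 | h1 <;> rcases h2 with h2 | h2
    · exact g1 (by rw [h1, h2])
    · apply g2; rw [h1, h2]; field_simp
    · apply g2; rw [h1, h2]; field_simp
    · exact g1 (by rw [h1, h2])
  have hbij : Function.Bijective t := Finite.injective_iff_bijective.1 hinj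
  let e : Fin 3 ≃ Fin 3 := Equiv.ofBijective t hbij
  classical
  let ε : Fin 3 → Bool := fun j => decide (r (e.symm j) ≠ s j)
  have hε : ∀ l, r l = sg q s ε (t l) := by
    intro l
    have he : e.symm (t l) = l := e.symm_apply_apply l
    unfold sg
    by_cases h : r l = s (t l)
    · have : ε (t l) = false := by simp [ε, he, h]
      simp [this, h]
    · have : ε (t l) = true := by simp [ε, he, h]
      rw [this]
      simpa using (ht l).resolve_left h
  have hstar : Star q (sg q s ε) := by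
    intro P hP hqP
    obtain ⟨l, l', hne, h1, h2⟩ := hr3 P hP hqP
    refine ⟨t l, t l', hinj.ne hne, ?_, ?_⟩
    · rw [← hε]; exact h1
    · rw [← hε]; exact h2
  rcases flip_const hq hs hst hstar with h | h
  · left
    intro l
    exact ⟨t l, by rw [hε l]; simp [sg, h]⟩
  · right
    intro l
    exact ⟨t l, by rw [hε l]; simp [sg, h]⟩

section

variable {I : Type*} [Fintype I] [DecidableEq I] {lam : I → ℂ} {P : ℤ[X]}

open scoped Classical in
/-- the ordinary polynomials of degree at most six have a Weil set which explains all pair free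
sets of roots hit by all primes -/
lemma exists_weil (hP : ∏ i, (X - C (lam i)) = P.map (Int.castRingHom ℂ)) {g : ℕ}
    (hI : Fintype.card I = 2 * g) (hg : g ≤ 3) {p a : ℕ} (hp : p.Prime) (ha : 0 < a)
    (hord : ¬ (p : ℤ) ∣ P.coeff g) (hn : ∀ i, ‖lam i‖ ^ 2 = (p ^ a : ℕ)) :
    ∃ Θ : Finset ℂ, IsWeilSet (p ^ a) Θ ∧ ∀ S : Finset ℂ, (∀ α ∈ S, ∃ i, lam i = α) →
      PairFree (p ^ a) S → (S ∩ Θ).card ≤ (Θ.card + 1) / 2 →
      (S ∩ Θ.image (starRingEnd ℂ)).card ≤ (Θ.card + 1) / 2 → ¬ Hit (p ^ a) S := by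
  obtain ⟨c, hc⟩ := exists_conj lam P hP
  obtain ⟨m0, hm1, hm2, hm3⟩ := exists_matching (by rw [hI]; exact even_two_mul g) lam (p ^ a) hn c
    hc
  set q : ℕ := p ^ a with hqdef
  have hq0' : q ≠ 0 := pow_ne_zero a hp.ne_zero
  have hq0 : (q : ℂ) ≠ 0 := by exact_mod_cast hq0'
  have hself : ∀ i, ∀ n : ℕ, 0 < n → (lam i * lam i) ^ n ≠ (q : ℂ) ^ n := fun i n hn0 h =>
    no_self hP hI hp ha hord hn c hc i n hn0 h
  have hmpair : ∀ i, lam i * lam (m0 i) = q := by
    intro i
    rcases hm3 i with h | ⟨h, -⟩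
    · exact h
    · exfalso
      refine hself i 1 one_pos ?_
      rw [pow_one, pow_one, ← pow_two, h]
  have hlam0 : ∀ i, lam i ≠ 0 := by
    intro i h
    have := hmpair i
    rw [h, zero_mul] at this
    exact hq0 this.symm
  have hconjq : ∀ i, (starRingEnd ℂ) (lam i) = (q : ℂ) / lam i := by
    intro i
    rw [eq_div_iff (hlam0 i), mul_comm, ← hc]
    exact mul_conj_eq hn hc i
  -- an enumeration of every exotic set
  have henum : ∀ S : Finset ℂ, (∀ α ∈ S, ∃ i, lam i = α) → PairFree q S → Hit q S →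
      ∃ ix : Fin 3 → I, g = 3 ∧ S = Finset.univ.image (fun l => lam (ix l)) ∧
        Function.Injective (fun l => lam (ix l)) ∧ S.card = 3 ∧
        IsIntegral ℤ ((∏ α ∈ S, α) / (q : ℂ)) ∧
        (∀ l l', ∀ n : ℕ, 0 < n → (lam (ix l) * lam (ix l')) ^ n ≠ (q : ℂ) ^ n) ∧
        Trip q (fun l => lam (ix l)) ∧ Star q (fun l => lam (ix l)) := by
    intro S hS hpf hhit
    have hch : ∀ α : S, ∃ i, lam i = (α : ℂ) := fun α => hS α α.2
    choose ch hch using hch
    have hchinj : Function.Injective ch := by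
      intro α β h
      apply Subtype.ext
      rw [← hch α, ← hch β, h]
    let J : Finset I := Finset.univ.image ch
    have hJ : ∀ i ∈ J, lam i ∈ S := by
      intro i hi
      obtain ⟨α, -, rfl⟩ := Finset.mem_image.1 hi
      rw [hch]; exact α.2
    have hJcard : J.card = S.card := by
      rw [Finset.card_image_of_injective _ hchinj, Finset.card_univ, Fintype.card_coe]
    have hJpair : ∀ i ∈ J, ∀ j ∈ J, ∀ n : ℕ, 0 < n → (lam i * lam j) ^ n ≠ (q : ℂ) ^ n :=
      fun i hi j hj n hn0 => hpf _ (hJ i hi) _ (hJ j hj) n hn0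
    have hJhit : ∀ Q : Ideal (integralClosure ℤ ℂ), Q.IsPrime →
        (q : integralClosure ℤ ℂ) ∈ Q →
        ∃ i ∈ J, (⟨lam i, isIntegral_lam hP i⟩ : integralClosure ℤ ℂ) ∈ Q := by
      intro Q hQ hqQ
      obtain ⟨x, hxQ, hxS⟩ := hhit Q hQ hqQ
      refine ⟨ch ⟨x, hxS⟩, Finset.mem_image_of_mem _ (Finset.mem_univ _), ?_⟩
      have : (⟨lam (ch ⟨x, hxS⟩), isIntegral_lam hP _⟩ : integralClosure ℤ ℂ) = x :=
        Subtype.ext (hch ⟨x, hxS⟩)
      rw [this]; exact hxQ
    obtain ⟨h3, -, -⟩ := block_ord hP hI hg hp ha hord hn J hJpair hJhit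
    have hg3 : g = 3 := by
      have hinj : Function.Injective m0 := fun i j h => by rw [← hm1 i, h, hm1]
      have h1 : Disjoint J (J.image m0) := by
        rw [Finset.disjoint_left]
        intro i hi h
        obtain ⟨j, hj, rfl⟩ := Finset.mem_image.1 h
        refine hJpair j hj (m0 j) hi 1 one_pos ?_
        rw [hmpair]
      have h2 := Finset.card_le_univ (J ∪ J.image m0)
      rw [Finset.card_union_of_disjoint h1, Finset.card_image_of_injective _ hinj, hI] at h2
      omega
    obtain ⟨i, j, k, hij, hik, hjk, hJe⟩ := Finset.card_eq_three.1 h3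
    have hlaminj : ∀ x ∈ J, ∀ y ∈ J, lam x = lam y → x = y := by
      intro x hx y hy hxy
      obtain ⟨α, -, rfl⟩ := Finset.mem_image.1 hx
      obtain ⟨β, -, rfl⟩ := Finset.mem_image.1 hy
      rw [hch, hch] at hxy
      rw [Subtype.ext hxy]
    have hJi : i ∈ J := by rw [hJe]; simp
    have hJj : j ∈ J := by rw [hJe]; simp
    have hJk : k ∈ J := by rw [hJe]; simp
    have hixJ : ∀ l, ![i, j, k] l ∈ J := by
      intro l; fin_cases l
      · exact hJi
      · exact hJj
      · exact hJk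
    have hixinj : Function.Injective ![i, j, k] := by
      intro l l' h
      fin_cases l <;> fin_cases l' <;> simp [hij, hik, hjk, hij.symm, hik.symm, hjk.symm] at h ⊢
    have hfinj : Function.Injective (fun l => lam (![i, j, k] l)) := by
      intro l l' h
      exact hixinj (hlaminj _ (hixJ l) _ (hixJ l') h)
    have hSe : S = Finset.univ.image (fun l => lam (![i, j, k] l)) := by
      symm
      apply Finset.eq_of_subset_of_card_le
      · intro α hα
        obtain ⟨l, -, rfl⟩ := Finset.mem_image.1 hα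
        exact hJ _ (hixJ l)
      · rw [Finset.card_image_of_injective _ hfinj, Finset.card_univ, Fintype.card_fin, ← hJcard,
          h3]
    have hS3 : S.card = 3 := by rw [← hJcard, h3]
    have hprodS : ∏ α ∈ S, α = ∏ l, lam (![i, j, k] l) := by
      rw [hSe, Finset.prod_image fun x _ y _ h => hfinj h]
    have hprodJ : ∏ l ∈ J, lam l = ∏ l, lam (![i, j, k] l) := by
      rw [hJe, Fin.prod_univ_three, Finset.prod_insert (by simp [hij, hik]), Finset.prod_pair hjk]
      simp [mul_assoc]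
    have hintS : IsIntegral ℤ ((∏ l, lam (![i, j, k] l)) / (q : ℂ)) := by
      rw [← hprodJ]
      exact cover_integral hP hI hp hord hn c hc J hJhit
    have htrip : Trip q (fun l => lam (![i, j, k] l)) := by
      refine ⟨fun l => hlam0 _, fun l => isIntegral_lam hP _, fun l => ?_, ?_, ?_⟩
      · rw [← hconjq]
        exact (isIntegral_lam hP _).map (starRingEnd ℂ).toIntAlgHom
      · intro Q hQ hqQ
        have hor : ∀ l, Nin Q (lam (![i, j, k] l)) ∨ Nin Q ((q : ℂ) / lam (![i, j, k] l)) := by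
          intro l
          rcases unit_or hP hI hp hord hn Q hQ hqQ c hc (![i, j, k] l) with h | h
          · exact Or.inl ⟨_, h⟩
          · right
            rw [← hconjq, ← hc]
            exact ⟨_, h⟩
        exact ⟨0, 1, by decide, hor 0, hor 1⟩
      · intro l l' hll hint
        obtain ⟨n, hn0, hn1⟩ := kron hP hq0' hn (![i, j, k] l) (![i, j, k] l') hint
        exact hJpair _ (hixJ l) _ (hixJ l') n hn0 hn1
    refine ⟨![i, j, k], hg3, hSe, hfinj, hS3, by rw [hprodS]; exact hintS,
      fun l l' n hn0 => hJpair _ (hixJ l) _ (hixJ l') n hn0, htrip, ?_⟩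
    refine star_of hq0' htrip hintS ?_
    have h1 : (q : ℂ) ^ 2 / ∏ l, lam (![i, j, k] l) =
        (starRingEnd ℂ) ((∏ l, lam (![i, j, k] l)) / (q : ℂ)) := by
      rw [map_div₀, map_prod, map_natCast, Finset.prod_congr rfl fun l _ => hconjq (![i, j, k] l),
        Finset.prod_div_distrib, Finset.prod_const, Finset.card_univ, Fintype.card_fin]
      have : (∏ l, lam (![i, j, k] l)) ≠ 0 := Finset.prod_ne_zero_iff.2 fun l _ => hlam0 _
      field_simp
    rw [h1]
    exact hintS.map (starRingEnd ℂ).toIntAlgHom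
  -- uniqueness
  have huniq : ∀ S S' : Finset ℂ, (∀ α ∈ S, ∃ i, lam i = α) → PairFree q S → Hit q S →
      (∀ α ∈ S', ∃ i, lam i = α) → PairFree q S' → Hit q S' →
      S' = S ∨ S' = S.image (starRingEnd ℂ) := by
    intro S S' h1 h2 h3 h1' h2' h3'
    obtain ⟨ix, hg3, hSe, hinj, hcard, -, hpf, htrip, hstar⟩ := henum S h1 h2 h3
    obtain ⟨ix', -, hSe', hinj', hcard', -, hpf', htrip', hstar'⟩ := henum S' h1' h2' h3'
    have hcover : ∀ i, ∃ l, lam i = lam (ix l) ∨ lam i = (q : ℂ) / lam (ix l) := by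
      have hixinj : Function.Injective ix := by
        intro l l' h
        exact hinj (by simp only [h])
      have hnm : ∀ l l', ix l ≠ m0 (ix l') := by
        intro l l' h
        refine hpf l' l 1 one_pos ?_
        rw [h, hmpair]
      let f : Fin 3 × Bool → I := fun z => if z.2 then m0 (ix z.1) else ix z.1
      have hf : Function.Injective f := by
        rintro ⟨l, b⟩ ⟨l', b'⟩ h
        cases b <;> cases b' <;> simp only [f, if_true, if_false, Bool.false_eq_true] at h
        · rw [hixinj h]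
        · exact (hnm _ _ h).elim
        · exact (hnm _ _ h.symm).elim
        · have h2 := congrArg m0 h
          rw [hm1, hm1] at h2
          rw [hixinj h2]
      have hfs : Function.Surjective f := by
        have : Fintype.card (Fin 3 × Bool) = Fintype.card I := by rw [hI, hg3]; simp
        exact ((Fintype.bijective_iff_injective_and_card f).2 ⟨hf, this⟩).2
      intro i
      obtain ⟨⟨l, b⟩, h⟩ := hfs i
      refine ⟨l, ?_⟩
      cases b <;> simp only [f, if_true, if_false, Bool.false_eq_true] at h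
      · exact Or.inl (by rw [h])
      · right
        rw [eq_div_iff (hlam0 _), ← h, mul_comm]
        exact hmpair _
    have hsub := unique_triple hq0' htrip hstar (r := fun l => lam (ix' l))
      (fun l => hcover (ix' l)) (fun l l' hll => ⟨hinj'.ne hll, fun h => hpf' l l' 1 one_pos (by
        rw [h])⟩) hstar'
    rcases hsub with h | h
    · left
      apply Finset.eq_of_subset_of_card_le
      · rw [hSe', hSe]
        intro α hα
        obtain ⟨l, -, rfl⟩ := Finset.mem_image.1 hα
        obtain ⟨l', hl'⟩ := h l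
        rw [hl']
        exact Finset.mem_image_of_mem (fun l => lam (ix l)) (Finset.mem_univ l')
      · rw [hcard, hcard']
    · right
      apply Finset.eq_of_subset_of_card_le
      · rw [hSe', hSe]
        intro α hα
        obtain ⟨l, -, rfl⟩ := Finset.mem_image.1 hα
        obtain ⟨l', hl'⟩ := h l
        rw [hl', ← hconjq]
        exact Finset.mem_image_of_mem _ (Finset.mem_image_of_mem (fun l => lam (ix l))
          (Finset.mem_univ l'))
      · rw [Finset.card_image_of_injective _ conj_inj, hcard, hcard']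
  by_cases hex : ∃ S : Finset ℂ, (∀ α ∈ S, ∃ i, lam i = α) ∧ PairFree q S ∧ Hit q S
  swap
  · push Not at hex
    exact ⟨∅, IsWeilSet.empty q, fun S h1 h2 _ _ => hex S h1 h2⟩
  obtain ⟨Θ, h1, h2, h3⟩ := hex
  obtain ⟨ix, -, -, -, hcard, hint, -, -, -⟩ := henum Θ h1 h2 h3
  refine ⟨Θ, ⟨?_, ?_, ?_⟩, ?_⟩
  · intro α hα
    obtain ⟨i, rfl⟩ := h1 α hα
    refine ⟨isIntegral_lam hP i, hn i, fun hα' => ?_⟩
    refine h2 _ hα _ hα' 1 one_pos ?_
    rw [hconjq]
    have := hlam0 i
    field_simp
  · intro σ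
    have hσroot : ∀ i, ∃ j, lam j = σ (lam i) := by
      intro i
      have h4 : eval₂ (Int.castRingHom ℂ) (σ (lam i)) P = 0 := by
        have h5 := congrArg σ (eval_lam hP i)
        rw [show σ (eval₂ (Int.castRingHom ℂ) (lam i) P) =
          (σ : ℂ →+* ℂ) (eval₂ (Int.castRingHom ℂ) (lam i) P) from rfl,
          Polynomial.hom_eval₂, show (σ : ℂ →+* ℂ).comp (Int.castRingHom ℂ) =
          Int.castRingHom ℂ from RingHom.ext_int _ _, map_zero] at h5
        exact h5
      rw [← Polynomial.eval_map, ← hP, Polynomial.eval_prod, Finset.prod_eq_zero_iff] at h4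
      obtain ⟨j, -, hj⟩ := h4
      refine ⟨j, ?_⟩
      have : σ (lam i) - lam j = 0 := by simpa using hj
      exact (sub_eq_zero.1 this).symm
    refine huniq Θ (Θ.image σ) h1 h2 h3 ?_ ?_ ?_
    · intro α hα
      obtain ⟨β, hβ, rfl⟩ := Finset.mem_image.1 hα
      obtain ⟨i, rfl⟩ := h1 β hβ
      exact hσroot i
    · intro α hα β hβ n hn0 h
      rw [Finset.mem_coe] at hα hβ
      obtain ⟨α', hα', rfl⟩ := Finset.mem_image.1 hα
      obtain ⟨β', hβ', rfl⟩ := Finset.mem_image.1 hβ
      refine h2 α' hα' β' hβ' n hn0 (σ.injective ?_)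
      rw [map_pow, map_mul, h, map_pow, map_natCast]
    · intro Q hQ hqQ
      let σO : integralClosure ℤ ℂ →+* integralClosure ℤ ℂ :=
        { toFun := fun x => ⟨σ x, (x.2 : IsIntegral ℤ (x : ℂ)).map (σ : ℂ →+* ℂ).toIntAlgHom⟩
          map_one' := Subtype.ext (map_one σ)
          map_mul' := fun x y => Subtype.ext (map_mul σ _ _)
          map_zero' := Subtype.ext (map_zero σ)
          map_add' := fun x y => Subtype.ext (map_add σ _ _) }
      obtain ⟨x, hxQ, hxS⟩ := h3 (Q.comap σO) (Ideal.comap_isPrime _ _) (by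
        rw [Ideal.mem_comap, map_natCast]; exact hqQ)
      exact ⟨σO x, hxQ, Finset.mem_coe.2 (Finset.mem_image_of_mem σ (Finset.mem_coe.1 hxS))⟩
  · rw [hcard]
    simpa using hint
  · intro S hS hpf hle hle' hhit
    rcases huniq Θ S h1 h2 h3 hS hpf hhit with h | h
    · rw [h, Finset.inter_self, hcard] at hle
      omega
    · rw [h, Finset.inter_self, Finset.card_image_of_injective _ conj_inj, hcard] at hle'
      omega

end

end Pool.Agent.Helper75.GTP
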